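import Mathlib

/-!
# The polynomial behind the centre of the Aztec diamond

For `h` and `ε ∈ {0, 1}` of the other parity, a polynomial `U` of degree at most `2h+1` with
`(1-X)^(h+1) ∣ U` and `(1+X)^(h+1) ∣ X^h - U`, with explicit coefficients.
-/

set_option autoImplicit false

namespace Pool.Agent.Q321.KM

open Polynomial Finset

theorem dvd_of_ode (h : ℕ) (a : ℚ) (ha : a ≠ 0) (V : ℚ[X]) (m : ℕ) (h0 : V.eval a = 0)
    (hd : (X - C a) ^ m ∣ X * derivative V - C (h : ℚ) * V) : (X - C a) ^ (m + 1) ∣ V := by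
  induction m with
  | zero =>
    rw [zero_add, pow_one]
    exact dvd_iff_isRoot.mpr h0
  | succ m ih =>
    obtain ⟨W, hW⟩ := ih ((pow_dvd_pow _ (Nat.le_succ m)).trans hd)
    have hne : (X - C a : ℚ[X]) ^ m ≠ 0 := pow_ne_zero _ (X_sub_C_ne_zero a)
    have e1 : X * derivative V - C (h : ℚ) * V = (X - C a) ^ m * (C ((m : ℚ) + 1) * X * W +
        (X - C a) * (X * derivative W - C (h : ℚ) * W)) := by
      rw [hW, derivative_mul, derivative_X_sub_C_pow]
      simp only [Nat.add_sub_cancel]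
      push_cast
      simp only [map_add, map_one, map_natCast]
      ring
    rw [e1, pow_succ, mul_dvd_mul_iff_left hne] at hd
    have h1 : (X - C a) ∣ C ((m : ℚ) + 1) * X * W :=
      (dvd_add_left (dvd_mul_right _ _)).mp hd
    have h2 : (C ((m : ℚ) + 1) * X * W).eval a = 0 := dvd_iff_isRoot.mp h1
    simp only [eval_mul, eval_C, eval_X] at h2
    have h3 : W.eval a = 0 := by
      rcases mul_eq_zero.mp h2 with h3 | h3
      · rcases mul_eq_zero.mp h3 with h4 | h4
        · exfalso; have : (0 : ℚ) < (m : ℚ) + 1 := by positivity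
          linarith
        · exact absurd h4 ha
      · exact h3
    obtain ⟨Z, hZ⟩ := dvd_iff_isRoot.mpr h3
    exact ⟨Z, by rw [hW, hZ]; ring⟩

/-- the summands -/
noncomputable def term (h ε r : ℕ) : ℚ := (-1) ^ r * (h.choose r : ℚ) / (2 * r + ε - h)

/-- the total sum -/
noncomputable def S (h ε : ℕ) : ℚ := ∑ r ∈ range (h + 1), term h ε r

/-- the polynomial -/
noncomputable def U (h ε : ℕ) (κ : ℚ) : ℚ[X] :=
  C (1 / 2) * X ^ h - C κ * ∑ r ∈ range (h + 1), C (term h ε r) * X ^ (2 * r + ε)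

variable {h ε : ℕ} {κ : ℚ}

theorem den_ne (hp : (h + ε) % 2 = 1) (r : ℕ) : (2 * (r : ℚ) + ε - h) ≠ 0 := by
  intro hc
  have : (2 * (r : ℚ) + ε) = h := by linarith
  have h2 : 2 * r + ε = h := by exact_mod_cast this
  omega

theorem one_sub_sq_pow (h : ℕ) : ((1 : ℚ[X]) - X ^ 2) ^ h =
    ∑ r ∈ range (h + 1), C ((-1) ^ r * (h.choose r : ℚ)) * X ^ (2 * r) := by
  rw [sub_eq_neg_add, add_pow]
  refine Finset.sum_congr rfl fun r _ => ?_
  rw [neg_pow, one_pow, mul_one, pow_mul]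
  simp only [map_mul, map_pow, map_neg, map_one, map_natCast]
  ring

theorem coeff_sq_even (h r : ℕ) : (((1 : ℚ[X]) - X ^ 2) ^ h).coeff (2 * r) =
    (-1) ^ r * (h.choose r : ℚ) := by
  rw [one_sub_sq_pow, finsetSum_coeff]
  simp only [coeff_C_mul, coeff_X_pow]
  by_cases hr : r < h + 1
  · rw [Finset.sum_eq_single r]
    · simp
    · intro b _ hb
      rw [if_neg (by omega), mul_zero]
    · intro hr'
      exact absurd (Finset.mem_range.mpr hr) hr'
  · rw [Nat.choose_eq_zero_of_lt (by omega)]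
    simp only [Nat.cast_zero, mul_zero]
    refine Finset.sum_eq_zero fun b hb => ?_
    rw [Finset.mem_range] at hb
    rw [if_neg (by omega), mul_zero]

theorem coeff_sq_odd (h r : ℕ) : (((1 : ℚ[X]) - X ^ 2) ^ h).coeff (2 * r + 1) = 0 := by
  rw [one_sub_sq_pow, finsetSum_coeff]
  simp only [coeff_C_mul, coeff_X_pow]
  refine Finset.sum_eq_zero fun b hb => ?_
  rw [if_neg (by omega), mul_zero]

theorem U_coeff_self (hp : (h + ε) % 2 = 1) : (U h ε κ).coeff h = 1 / 2 := by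
  unfold U
  rw [coeff_sub, coeff_C_mul, coeff_C_mul, finsetSum_coeff, coeff_X_pow, if_pos rfl,
    Finset.sum_eq_zero, mul_zero, sub_zero, mul_one]
  intro r _
  rw [coeff_C_mul, coeff_X_pow, if_neg (by omega), mul_zero]

theorem U_coeff_par (hp : (h + ε) % 2 = 1) (r : ℕ) :
    (U h ε κ).coeff (2 * r + ε) = - κ * term h ε r := by
  unfold U
  rw [coeff_sub, coeff_C_mul, coeff_C_mul, finsetSum_coeff, coeff_X_pow, if_neg (by omega),
    mul_zero, zero_sub, neg_mul]
  congr 2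
  simp only [coeff_C_mul, coeff_X_pow]
  by_cases hr : r < h + 1
  · rw [Finset.sum_eq_single r]
    · simp
    · intro b _ hb
      rw [if_neg (by omega), mul_zero]
    · intro hr'
      exact absurd (Finset.mem_range.mpr hr) hr'
  · have : term h ε r = 0 := by
      unfold term
      rw [Nat.choose_eq_zero_of_lt (by omega)]
      simp
    rw [this]
    refine Finset.sum_eq_zero fun b hb => ?_
    rw [Finset.mem_range] at hb
    rw [if_neg (by omega), mul_zero]

theorem U_coeff_other (hp : (h + ε) % 2 = 1) (l : ℕ) (h1 : l ≠ h) (h2 : (l + ε) % 2 = 1) :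
    (U h ε κ).coeff l = 0 := by
  unfold U
  rw [coeff_sub, coeff_C_mul, coeff_C_mul, finsetSum_coeff, coeff_X_pow, if_neg h1,
    mul_zero, Finset.sum_eq_zero, mul_zero, sub_zero]
  intro r _
  rw [coeff_C_mul, coeff_X_pow, if_neg (by omega), mul_zero]

theorem U_natDegree (hε : ε ≤ 1) : (U h ε κ).natDegree ≤ 2 * h + 1 := by
  unfold U
  refine (natDegree_sub_le _ _).trans (max_le ?_ ?_)
  · exact (natDegree_C_mul_X_pow_le _ _).trans (by omega)
  · refine (natDegree_C_mul_le _ _).trans ?_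
    refine natDegree_sum_le_of_forall_le _ _ fun r hr => ?_
    rw [Finset.mem_range] at hr
    exact (natDegree_C_mul_X_pow_le _ _).trans (by omega)

theorem ode_mono (h n : ℕ) (a : ℚ) : X * derivative (C a * X ^ n) - C (h : ℚ) * (C a * X ^ n) =
    C (a * (n - h)) * (X : ℚ[X]) ^ n := by
  rw [derivative_C_mul_X_pow]
  cases n with
  | zero => simp; ring
  | succ n =>
    rw [Nat.add_sub_cancel]
    simp only [map_mul, map_sub, map_natCast]
    ring

theorem U_ode (hp : (h + ε) % 2 = 1) : X * derivative (U h ε κ) - C (h : ℚ) * U h ε κ =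
    - C κ * X ^ ε * (1 - X ^ 2) ^ h := by
  have e1 : X * derivative (U h ε κ) - C (h : ℚ) * U h ε κ =
      (X * derivative (C (1 / 2) * X ^ h) - C (h : ℚ) * (C (1 / 2) * X ^ h)) -
      C κ * ∑ r ∈ range (h + 1), (X * derivative (C (term h ε r) * X ^ (2 * r + ε)) -
        C (h : ℚ) * (C (term h ε r) * X ^ (2 * r + ε))) := by
    unfold U
    rw [derivative_sub, derivative_C_mul (a := κ), derivative_sum, Finset.sum_sub_distrib,
      ← Finset.mul_sum, ← Finset.mul_sum]
    ring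
  rw [e1, one_sub_sq_pow]
  simp only [ode_mono]
  rw [sub_self, mul_zero, map_zero, zero_mul, zero_sub, neg_mul, neg_mul, neg_inj, mul_assoc,
    Finset.mul_sum (a := (X : ℚ[X]) ^ ε)]
  congr 1
  refine Finset.sum_congr rfl fun r _ => ?_
  have h1 : term h ε r * (((2 * r + ε : ℕ) : ℚ) - h) = (-1) ^ r * (h.choose r : ℚ) := by
    unfold term
    push_cast
    rw [div_mul_cancel₀ _ (den_ne hp r)]
  rw [h1]
  ring

theorem U_eval_one (hκ : κ * S h ε = 1 / 2) : (U h ε κ).eval 1 = 0 := by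
  unfold U
  simp only [eval_sub, eval_mul, eval_C, eval_pow, eval_X, one_pow, mul_one, eval_finset_sum]
  unfold S at hκ
  rw [hκ, sub_self]

theorem U_eval_neg_one (hp : (h + ε) % 2 = 1) (hκ : κ * S h ε = 1 / 2) :
    (U h ε κ).eval (-1) = (-1) ^ h := by
  unfold U
  simp only [eval_sub, eval_mul, eval_C, eval_pow, eval_X, eval_finset_sum]
  have e1 : ∀ r : ℕ, (-1 : ℚ) ^ (2 * r + ε) = (-1) ^ ε := by
    intro r; rw [pow_add, pow_mul]; simp
  simp only [e1]
  rw [← Finset.sum_mul, ← mul_assoc]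
  unfold S at hκ
  rw [hκ]
  have e2 : (-1 : ℚ) ^ ε = - (-1) ^ h := by
    have h1 : (-1 : ℚ) ^ (h + ε) = -1 := Odd.neg_one_pow (Nat.odd_iff.mpr hp)
    rw [pow_add] at h1
    rcases neg_one_pow_eq_or ℚ h with h2 | h2 <;> rw [h2] at h1 ⊢ <;> linarith
  rw [e2]
  ring

theorem U_dvd (hp : (h + ε) % 2 = 1) (hκ : κ * S h ε = 1 / 2) :
    (1 - X : ℚ[X]) ^ (h + 1) ∣ U h ε κ := by
  have h1 : (X - C 1 : ℚ[X]) ^ (h + 1) ∣ U h ε κ := by
    refine dvd_of_ode h 1 one_ne_zero _ h (U_eval_one hκ) ?_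
    rw [U_ode hp]
    refine Dvd.dvd.mul_left ?_ _
    refine pow_dvd_pow_of_dvd ⟨-(1 + X), ?_⟩ h
    rw [map_one]; ring
  refine dvd_trans ?_ h1
  refine pow_dvd_pow_of_dvd ⟨-1, ?_⟩ _
  rw [map_one]; ring

theorem U_dvd' (hp : (h + ε) % 2 = 1) (hκ : κ * S h ε = 1 / 2) :
    (1 + X : ℚ[X]) ^ (h + 1) ∣ X ^ h - U h ε κ := by
  have h1 : (X - C (-1) : ℚ[X]) ^ (h + 1) ∣ X ^ h - U h ε κ := by
    refine dvd_of_ode h (-1) (by norm_num) _ h ?_ ?_
    · rw [eval_sub, U_eval_neg_one hp hκ]; simp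
    · have e1 : X * derivative (X ^ h - U h ε κ) - C (h : ℚ) * (X ^ h - U h ε κ) =
          (X * derivative (C 1 * X ^ h) - C (h : ℚ) * (C 1 * X ^ h)) -
          (X * derivative (U h ε κ) - C (h : ℚ) * U h ε κ) := by
        rw [derivative_sub, map_one, one_mul]; ring
      rw [e1, ode_mono, U_ode hp, sub_self, mul_zero, map_zero, zero_mul, zero_sub, neg_mul, neg_mul,
        neg_neg]
      refine Dvd.dvd.mul_left ?_ _
      refine pow_dvd_pow_of_dvd ⟨(1 - X), ?_⟩ h
      rw [map_neg, map_one]; ring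
  refine dvd_trans ?_ h1
  refine pow_dvd_pow_of_dvd ⟨1, ?_⟩ _
  rw [map_neg, map_one]; ring

end Pool.Agent.Q321.KM
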