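import Mathlib
import Pool.Agent.Helper848.AztecDet
import Pool.Agent.Q321.KM.Mast

/-!
# Columns of the inverse Kasteleyn matrix of the Aztec diamond from Bezout identities
-/

set_option autoImplicit false

namespace Pool.Agent.Q321.KM

open Polynomial Finset Pool.Agent.Helper848.AztecDet

/-- a Bezout identity with degree bounds -/
structure Bez (n s0 t : ℕ) (A B : ℚ[X]) : Prop where
  eq : (1 + X) ^ s0 * A + (1 - X) ^ (n + 1 - s0) * B = X ^ t
  degA : A.natDegree ≤ n - s0
  degB : B.natDegree + 1 ≤ s0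

/-- the column, as a family of polynomials -/
noncomputable def Gf (n s0 : ℕ) (A B : ℚ[X]) (s : ℕ) : ℚ[X] :=
  if s < s0 then (-1) ^ (s0 - 1 - s) * ((1 + X) ^ s * (1 - X) ^ (s0 - 1 - s) * A)
  else (-1) ^ (s - s0) * ((1 + X) ^ (s - s0) * (1 - X) ^ (n - s) * B)

theorem natDegree_one_add : (1 + X : ℚ[X]).natDegree ≤ 1 := by
  rw [add_comm]
  exact (natDegree_X_add_C (1 : ℚ)).le

theorem natDegree_one_sub : (1 - X : ℚ[X]).natDegree ≤ 1 := by
  refine (natDegree_sub_le _ _).trans ?_
  rw [natDegree_one, natDegree_X]; simp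

theorem natDegree_pp (a b : ℕ) : ((1 + X : ℚ[X]) ^ a * (1 - X) ^ b).natDegree ≤ a + b := by
  refine natDegree_mul_le.trans (add_le_add ?_ ?_)
  · refine natDegree_pow_le.trans ?_
    have := Nat.mul_le_mul_left a natDegree_one_add
    omega
  · refine natDegree_pow_le.trans ?_
    have := Nat.mul_le_mul_left b natDegree_one_sub
    omega

theorem natDegree_neg_one_pow_mul (m : ℕ) (p : ℚ[X]) : ((-1) ^ m * p).natDegree ≤ p.natDegree := by
  have : ((-1) ^ m : ℚ[X]) = C ((-1) ^ m) := by simp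
  rw [this]
  exact natDegree_C_mul_le _ _

theorem Gf_coeff_top {n s0 t : ℕ} {A B : ℚ[X]} (hb : Bez n s0 t A B) (h1 : s0 ≤ n) (s : ℕ)
    (hs : s ≤ n) : (Gf n s0 A B s).coeff n = 0 := by
  apply coeff_eq_zero_of_natDegree_lt
  have hA := hb.degA
  have hB := hb.degB
  unfold Gf
  split_ifs with h
  · refine lt_of_le_of_lt (natDegree_neg_one_pow_mul _ _) ?_
    refine lt_of_le_of_lt natDegree_mul_le ?_
    have := natDegree_pp s (s0 - 1 - s)
    omega
  · refine lt_of_le_of_lt (natDegree_neg_one_pow_mul _ _) ?_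
    refine lt_of_le_of_lt natDegree_mul_le ?_
    have := natDegree_pp (s - s0) (n - s)
    omega

theorem Gf_rec {n s0 t : ℕ} {A B : ℚ[X]} (hb : Bez n s0 t A B) (h1 : s0 ≤ n) (s : ℕ)
    (hs : s < n) : (1 - X) * Gf n s0 A B (s + 1) + (1 + X) * Gf n s0 A B s =
      if s + 1 = s0 then X ^ t else 0 := by
  have hB := hb.degB
  rcases lt_trichotomy (s + 1) s0 with h | h | h
  · rw [if_neg h.ne]
    unfold Gf
    rw [if_pos h, if_pos (by omega : s < s0), show s0 - 1 - s = (s0 - 1 - (s + 1)) + 1 from by omega]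
    ring
  · rw [if_pos h]
    unfold Gf
    rw [if_neg (by omega), if_pos (by omega : s < s0), show s0 - 1 - s = 0 from by omega,
      show s + 1 - s0 = 0 from by omega, ← hb.eq, show n + 1 - s0 = (n - (s + 1)) + 1 from by omega,
      ← h]
    ring
  · rw [if_neg h.ne']
    unfold Gf
    rw [if_neg (by omega), if_neg (by omega), show s + 1 - s0 = (s - s0) + 1 from by omega,
      show n - s = (n - (s + 1)) + 1 from by omega]
    ring

theorem Gf_sol {n s0 t : ℕ} {A B : ℚ[X]} (hb : Bez n s0 t A B) (h1 : s0 ≤ n) (o : O n) :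
    ∑ x : E n, K0 n o x * (Gf n s0 A B x.1).coeff x.2 =
      if (o.1 : ℕ) + 1 = s0 ∧ (o.2 : ℕ) = t then 1 else 0 := by
  rw [K0_apply n (Gf n s0 A B) (fun s hs => Gf_coeff_top hb h1 s hs) o, Gf_rec hb h1 o.1 o.1.2]
  by_cases h : (o.1 : ℕ) + 1 = s0
  · rw [if_pos h, coeff_X_pow]
    by_cases h2 : (o.2 : ℕ) = t <;> simp [h, h2]
  · rw [if_neg h, if_neg (fun hc => h hc.1), coeff_zero]

theorem coeff_one_add_top (m : ℕ) : ((1 + X : ℚ[X]) ^ m).coeff m = 1 := by
  rw [coeff_one_add_X_pow]; simp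

theorem coeff_one_sub_top (m : ℕ) : ((1 - X : ℚ[X]) ^ m).coeff m = (-1) ^ m := by
  have h : (1 - X : ℚ[X]) = -(X - C 1) := by rw [map_one]; ring
  have h2 := coeff_natDegree (p := (1 - X : ℚ[X]) ^ m)
  rw [h, neg_pow] at h2 ⊢
  have h3 : ((-1) ^ m : ℚ[X]) = C ((-1) ^ m) := by simp
  rw [h3, coeff_C_mul]
  have h4 : ((X - C 1 : ℚ[X]) ^ m).natDegree = m := by
    rw [natDegree_pow, natDegree_X_sub_C, mul_one]
  have h5 := coeff_natDegree (p := (X - C 1 : ℚ[X]) ^ m)
  rw [h4, leadingCoeff_pow, leadingCoeff_X_sub_C, one_pow] at h5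
  rw [h5, mul_one]

theorem natDegree_one_sub_pow (m : ℕ) : ((1 - X : ℚ[X]) ^ m).natDegree ≤ m := by
  simpa using natDegree_pp 0 m

theorem natDegree_one_add_pow (m : ℕ) : ((1 + X : ℚ[X]) ^ m).natDegree ≤ m := by
  simpa using natDegree_pp m 0

/-- the top coefficients of a Bezout identity -/
theorem Bez.top {n s0 t : ℕ} {A B : ℚ[X]} (hb : Bez n s0 t A B) (h1 : s0 ≤ n) (ht : t < n) :
    A.coeff (n - s0) + (-1) ^ (n + 1 - s0) * B.coeff (s0 - 1) = 0 := by
  have hB := hb.degB
  have h := congrArg (fun p => coeff p n) hb.eq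
  simp only [coeff_add] at h
  have e1 : n = s0 + (n - s0) := by omega
  have e2 : n = (n + 1 - s0) + (s0 - 1) := by omega
  have c1 : ((1 + X : ℚ[X]) ^ s0 * A).coeff n = A.coeff (n - s0) := by
    conv_lhs => rw [e1]
    rw [coeff_mul_add_eq_of_natDegree_le (natDegree_one_add_pow s0) hb.degA, coeff_one_add_top, one_mul]
  have c2 : ((1 - X : ℚ[X]) ^ (n + 1 - s0) * B).coeff n = (-1) ^ (n + 1 - s0) * B.coeff (s0 - 1) := by
    have h3 := coeff_mul_add_eq_of_natDegree_le (natDegree_one_sub_pow (n + 1 - s0))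
      (show B.natDegree ≤ s0 - 1 by omega)
    rw [← e2, coeff_one_sub_top] at h3
    exact h3
  rw [c1, c2, coeff_X_pow, if_neg (by omega)] at h
  exact h

theorem natDegree_le_of_top {p : ℚ[X]} {m : ℕ} (h1 : p.natDegree ≤ m + 1) (h2 : p.coeff (m + 1) = 0) :
    p.natDegree ≤ m := by
  rw [natDegree_le_iff_coeff_eq_zero]
  intro N hN
  rcases Nat.lt_or_ge (m + 1) N with h | h
  · exact coeff_eq_zero_of_natDegree_lt (by omega)
  · rw [show N = m + 1 from by omega]; exact h2

/-- from the source `X ^ t` to the source `X ^ (t + 1)` -/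
theorem Bez.shift {n s0 t : ℕ} {A B : ℚ[X]} (hb : Bez n s0 t A B) (h1 : s0 ≤ n) (ht : t < n) :
    Bez n s0 (t + 1) (X * A - C (-B.coeff (s0 - 1)) * (1 - X) ^ (n + 1 - s0))
      (X * B + C (-B.coeff (s0 - 1)) * (1 + X) ^ s0) := by
  have hB := hb.degB
  have htop := hb.top h1 ht
  refine ⟨?_, ?_, ?_⟩
  · rw [pow_succ, ← hb.eq]; ring
  · apply natDegree_le_of_top
    · refine (natDegree_sub_le _ _).trans (max_le ?_ ?_)
      · refine natDegree_mul_le.trans ?_
        rw [natDegree_X]
        have := hb.degA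
        omega
      · refine (natDegree_C_mul_le _ _).trans ((natDegree_one_sub_pow _).trans ?_)
        omega
    · rw [coeff_sub, coeff_X_mul, coeff_C_mul, show n - s0 + 1 = n + 1 - s0 from by omega,
        coeff_one_sub_top]
      linarith
  · have h2 : (X * B + C (-B.coeff (s0 - 1)) * (1 + X) ^ s0 : ℚ[X]).natDegree ≤ s0 - 1 := by
      apply natDegree_le_of_top
      · rw [show s0 - 1 + 1 = s0 from by omega]
        refine (natDegree_add_le _ _).trans (max_le ?_ ?_)
        · refine natDegree_mul_le.trans ?_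
          rw [natDegree_X]
          omega
        · exact (natDegree_C_mul_le _ _).trans (natDegree_one_add_pow _)
      · rw [coeff_add, coeff_X_mul, coeff_C_mul, show s0 - 1 + 1 = s0 from by omega,
          coeff_one_add_top]
        ring
    omega

/-- from order `n + 1` to order `n` -/
theorem Bez.lower {n s0 t : ℕ} {A B : ℚ[X]} (hb : Bez (n + 1) (s0 + 1) t A B) (h0 : 1 ≤ s0)
    (h1 : s0 ≤ n) (ht : t ≤ n) :
    Bez n s0 t ((1 + X) * A - C (-B.coeff s0) * (1 - X) ^ (n + 1 - s0))
      (B + C (-B.coeff s0) * (1 + X) ^ s0) := by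
  have hB := hb.degB
  have hA := hb.degA
  have htop := hb.top (by omega) (by omega)
  rw [show n + 1 - (s0 + 1) = n - s0 from by omega,
    show n + 1 + 1 - (s0 + 1) = n + 1 - s0 from by omega, Nat.add_sub_cancel] at htop
  refine ⟨?_, ?_, ?_⟩
  · have := hb.eq
    rw [show n + 1 + 1 - (s0 + 1) = n + 1 - s0 from by omega] at this
    rw [← this]; ring
  · apply natDegree_le_of_top
    · refine (natDegree_sub_le _ _).trans (max_le ?_ ?_)
      · refine natDegree_mul_le.trans ?_
        have := natDegree_one_add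
        omega
      · refine (natDegree_C_mul_le _ _).trans ((natDegree_one_sub_pow _).trans ?_)
        omega
    · have c1 : ((1 + X) * A : ℚ[X]).coeff (n - s0 + 1) = A.coeff (n - s0) := by
        rw [show n - s0 + 1 = 1 + (n - s0) from by omega,
          coeff_mul_add_eq_of_natDegree_le natDegree_one_add (by omega)]
        have := coeff_one_add_top 1
        rw [pow_one] at this
        rw [this, one_mul]
      rw [coeff_sub, c1, coeff_C_mul, show n - s0 + 1 = n + 1 - s0 from by omega,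
        coeff_one_sub_top]
      linarith
  · have h2 : (B + C (-B.coeff s0) * (1 + X) ^ s0 : ℚ[X]).natDegree ≤ s0 - 1 := by
      apply natDegree_le_of_top
      · rw [show s0 - 1 + 1 = s0 from by omega]
        refine (natDegree_add_le _ _).trans (max_le (by omega) ?_)
        exact (natDegree_C_mul_le _ _).trans (natDegree_one_add_pow _)
      · rw [coeff_add, coeff_C_mul, show s0 - 1 + 1 = s0 from by omega, coeff_one_add_top]
        ring
    omega

/-- the basic Bezout identity -/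
theorem exists_bez {h ε : ℕ} {κ : ℚ} (hp : (h + ε) % 2 = 1) (hε : ε ≤ 1) (h0 : 1 ≤ h)
    (hκ : κ * S h ε = 1 / 2) : ∃ A B : ℚ[X], Bez (2 * h + 1) (h + 1) h A B ∧
      (1 - X) ^ (h + 1) * B = U h ε κ ∧ (1 + X) ^ (h + 1) * A = X ^ h - U h ε κ ∧
      (-1) ^ (h + 1) * B.coeff h = (U h ε κ).coeff (2 * h + 1) := by
  obtain ⟨B, hB⟩ := U_dvd hp hκ
  obtain ⟨A, hA⟩ := U_dvd' hp hκ
  have hne1 : (1 - X : ℚ[X]) ≠ 0 := by
    intro hc
    have := congrArg (fun p => coeff p 0) hc
    simp at this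
  have hne2 : (1 + X : ℚ[X]) ≠ 0 := by
    intro hc
    have := congrArg (fun p => coeff p 0) hc
    simp at this
  have hd1 : (1 - X : ℚ[X]).natDegree = 1 := by
    refine le_antisymm natDegree_one_sub ?_
    apply le_natDegree_of_ne_zero
    simp [coeff_one]
  have hd2 : (1 + X : ℚ[X]).natDegree = 1 := by
    refine le_antisymm natDegree_one_add ?_
    apply le_natDegree_of_ne_zero
    simp [coeff_one]
  have degB : B.natDegree ≤ h := by
    by_cases hB0 : B = 0
    · rw [hB0]; simp
    · have h1 := U_natDegree (h := h) (κ := κ) hε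
      rw [hB, natDegree_mul (pow_ne_zero _ hne1) hB0, natDegree_pow, hd1] at h1
      omega
  have degA : A.natDegree ≤ h := by
    by_cases hA0 : A = 0
    · rw [hA0]; simp
    · have h1 : (X ^ h - U h ε κ).natDegree ≤ 2 * h + 1 := by
        refine (natDegree_sub_le _ _).trans (max_le ?_ (U_natDegree hε))
        rw [natDegree_X_pow]; omega
      rw [hA, natDegree_mul (pow_ne_zero _ hne2) hA0, natDegree_pow, hd2] at h1
      omega
  refine ⟨A, B, ⟨?_, by omega, by omega⟩, hB.symm, hA.symm, ?_⟩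
  · rw [show 2 * h + 1 + 1 - (h + 1) = h + 1 from by omega, ← hA, ← hB]; ring
  · rw [hB, show 2 * h + 1 = (h + 1) + h from by omega,
      coeff_mul_add_eq_of_natDegree_le (natDegree_one_sub_pow (h + 1)) degB, coeff_one_sub_top]

end Pool.Agent.Q321.KM
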