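import Mathlib
import Pool.Agent.Helper848.Kast
import Pool.Agent.Helper848.AztecDet

/-!
# The Aztec diamond without a knight's-move pair, and its Kasteleyn matrix
-/

set_option autoImplicit false

namespace Pool.Agent.Q321.KM

open Finset Pool.Agent.Helper848 Pool.Agent.Helper848.AztecDet

/-- The Aztec diamond of order `n`. The integer pair `(a, b)` stands for the closed unit square
with centre `(a + 1/2, b + 1/2)`; it belongs to the diamond iff `|a + 1/2| + |b + 1/2| ≤ n`. -/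
noncomputable def aztec (n : ℕ) : Finset (ℤ × ℤ) :=
  (Finset.Icc (-(n : ℤ)) n ×ˢ Finset.Icc (-(n : ℤ)) n).filter
    fun p => |2 * p.1 + 1| + |2 * p.2 + 1| ≤ 2 * n

/-- The region `D_n`: the Aztec diamond without the squares with centres `(-1/2, -1/2)` and
`(1/2, 3/2)`. -/
noncomputable def knightRegion (n : ℕ) : Finset (ℤ × ℤ) := ((aztec n).erase (-1, -1)).erase (0, 1)

theorem mem_aztec {n : ℕ} {p : ℤ × ℤ} : p ∈ aztec n ↔
    -(n : ℤ) ≤ p.1 + p.2 + 1 ∧ p.1 + p.2 + 1 ≤ n ∧ -(n : ℤ) ≤ p.1 - p.2 ∧ p.1 - p.2 ≤ n := by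
  unfold aztec
  rw [Finset.mem_filter, Finset.mem_product, Finset.mem_Icc, Finset.mem_Icc]
  rcases abs_cases (2 * p.1 + 1) with h1 | h1 <;> rcases abs_cases (2 * p.2 + 1) with h2 | h2 <;>
    rw [h1.1, h2.1] <;> constructor <;> intro h <;> omega

theorem mem_knight {n : ℕ} {p : ℤ × ℤ} : p ∈ knightRegion n ↔ p ≠ (0, 1) ∧ p ≠ (-1, -1) ∧
    p ∈ aztec n := by
  unfold knightRegion
  rw [Finset.mem_erase, Finset.mem_erase]

theorem above_erase (R : Finset (ℤ × ℤ)) (c p : ℤ × ℤ) (hc : c ∈ R) :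
    above (R.erase c) p + (if c.2 - c.1 = p.2 - p.1 ∧ p.1 < c.1 then 1 else 0) = above R p := by
  unfold above
  rw [Finset.filter_erase]
  split_ifs with h
  · exact Finset.card_erase_add_one (Finset.mem_filter.mpr ⟨hc, h⟩)
  · rw [Finset.erase_eq_of_notMem, add_zero]
    intro hm
    exact h (Finset.mem_filter.mp hm).2

theorem below_erase (R : Finset (ℤ × ℤ)) (c p : ℤ × ℤ) (hc : c ∈ R) :
    below (R.erase c) p + (if c.2 - c.1 = p.2 - p.1 ∧ c.1 < p.1 then 1 else 0) = below R p := by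
  unfold below
  rw [Finset.filter_erase]
  split_ifs with h
  · exact Finset.card_erase_add_one (Finset.mem_filter.mpr ⟨hc, h⟩)
  · rw [Finset.erase_eq_of_notMem, add_zero]
    intro hm
    exact h (Finset.mem_filter.mp hm).2

/-- white cells -/
def fc (n : ℕ) (x : E n) : ℤ × ℤ := ((x.2 : ℕ) + (x.1 : ℕ) - n, (x.2 : ℕ) - (x.1 : ℕ))

/-- black cells -/
def gc (n : ℕ) (o : O n) : ℤ × ℤ := ((o.2 : ℕ) + (o.1 : ℕ) - n, (o.2 : ℕ) - (o.1 : ℕ) - 1)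

theorem above_aztec (n : ℕ) (x : E n) : above (aztec n) (fc n x) + (x.2 : ℕ) + 1 = n := by
  have h1 := x.1.2
  have h2 := x.2.2
  unfold above
  have : (aztec n).filter (fun q => q.2 - q.1 = (fc n x).2 - (fc n x).1 ∧ (fc n x).1 < q.1) =
      (Finset.Ioc ((x.2 : ℤ) + (x.1 : ℕ) - n) ((x.1 : ℕ) - 1)).image
        (fun a : ℤ => (a, a + n - 2 * (x.1 : ℕ))) := by
    ext q
    simp only [Finset.mem_filter, Finset.mem_image, Finset.mem_Ioc, mem_aztec, fc]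
    constructor
    · intro h
      refine ⟨q.1, by omega, ?_⟩
      ext <;> simp <;> omega
    · rintro ⟨a, ha, rfl⟩
      simp only
      omega
  rw [this, Finset.card_image_of_injective _ (fun a b h => (Prod.mk.inj h).1), Int.card_Ioc]
  omega

theorem below_aztec (n : ℕ) (o : O n) : below (aztec n) (gc n o) = (o.2 : ℕ) := by
  have h1 := o.1.2
  have h2 := o.2.2
  unfold below
  have : (aztec n).filter (fun q => q.2 - q.1 = (gc n o).2 - (gc n o).1 ∧ q.1 < (gc n o).1) =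
      (Finset.Ico ((o.1 : ℤ) - n) ((o.2 : ℤ) + (o.1 : ℕ) - n)).image
        (fun a : ℤ => (a, a + n - 1 - 2 * (o.1 : ℕ))) := by
    ext q
    simp only [Finset.mem_filter, Finset.mem_image, Finset.mem_Ico, mem_aztec, gc]
    constructor
    · intro h
      refine ⟨q.1, by omega, ?_⟩
      ext <;> simp <;> omega
    · rintro ⟨a, ha, rfl⟩
      simp only
      omega
  rw [this, Finset.card_image_of_injective _ (fun a b h => (Prod.mk.inj h).1), Int.card_Ico]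
  omega

theorem above_knight {n : ℕ} (hn : 2 ≤ n) (x : E n) :
    above (knightRegion n) (fc n x) +
      (if (1 : ℤ) = n - 2 * (x.1 : ℕ) ∧ ((x.2 : ℕ) + (x.1 : ℕ) - n : ℤ) < 0 then 1 else 0) +
      (if (0 : ℤ) = n - 2 * (x.1 : ℕ) ∧ ((x.2 : ℕ) + (x.1 : ℕ) - n : ℤ) < -1 then 1 else 0) +
      (x.2 : ℕ) + 1 = n := by
  have h1 := above_erase ((aztec n).erase (-1, -1)) (0, 1) (fc n x) (by
    rw [Finset.mem_erase, mem_aztec]; refine ⟨by simp, ?_⟩; simp; omega)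
  have h2 := above_erase (aztec n) (-1, -1) (fc n x) (by rw [mem_aztec]; simp; omega)
  have h3 := above_aztec n x
  have e1 : ((0, 1) : ℤ × ℤ).2 - ((0, 1) : ℤ × ℤ).1 = (fc n x).2 - (fc n x).1 ∧
      (fc n x).1 < ((0, 1) : ℤ × ℤ).1 ↔ (1 : ℤ) = n - 2 * (x.1 : ℕ) ∧
      ((x.2 : ℕ) + (x.1 : ℕ) - n : ℤ) < 0 := by
    unfold fc; simp only; omega
  have e2 : ((-1, -1) : ℤ × ℤ).2 - ((-1, -1) : ℤ × ℤ).1 = (fc n x).2 - (fc n x).1 ∧
      (fc n x).1 < ((-1, -1) : ℤ × ℤ).1 ↔ (0 : ℤ) = n - 2 * (x.1 : ℕ) ∧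
      ((x.2 : ℕ) + (x.1 : ℕ) - n : ℤ) < -1 := by
    unfold fc; simp only; omega
  rw [if_congr e1 rfl rfl] at h1
  rw [if_congr e2 rfl rfl] at h2
  unfold knightRegion
  omega

theorem below_knight {n : ℕ} (hn : 2 ≤ n) (o : O n) :
    below (knightRegion n) (gc n o) +
      (if (1 : ℤ) = n - 1 - 2 * (o.1 : ℕ) ∧ (0 : ℤ) < ((o.2 : ℕ) + (o.1 : ℕ) - n : ℤ) then 1 else 0) +
      (if (0 : ℤ) = n - 1 - 2 * (o.1 : ℕ) ∧ (-1 : ℤ) < ((o.2 : ℕ) + (o.1 : ℕ) - n : ℤ) then 1 else 0) =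
      (o.2 : ℕ) := by
  have h1 := below_erase ((aztec n).erase (-1, -1)) (0, 1) (gc n o) (by
    rw [Finset.mem_erase, mem_aztec]; refine ⟨by simp, ?_⟩; simp; omega)
  have h2 := below_erase (aztec n) (-1, -1) (gc n o) (by rw [mem_aztec]; simp; omega)
  have h3 := below_aztec n o
  have e1 : ((0, 1) : ℤ × ℤ).2 - ((0, 1) : ℤ × ℤ).1 = (gc n o).2 - (gc n o).1 ∧
      ((0, 1) : ℤ × ℤ).1 < (gc n o).1 ↔ (1 : ℤ) = n - 1 - 2 * (o.1 : ℕ) ∧
      (0 : ℤ) < ((o.2 : ℕ) + (o.1 : ℕ) - n : ℤ) := by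
    unfold gc; simp only; omega
  have e2 : ((-1, -1) : ℤ × ℤ).2 - ((-1, -1) : ℤ × ℤ).1 = (gc n o).2 - (gc n o).1 ∧
      ((-1, -1) : ℤ × ℤ).1 < (gc n o).1 ↔ (0 : ℤ) = n - 1 - 2 * (o.1 : ℕ) ∧
      (-1 : ℤ) < ((o.2 : ℕ) + (o.1 : ℕ) - n : ℤ) := by
    unfold gc; simp only; omega
  rw [if_congr e1 rfl rfl] at h1
  rw [if_congr e2 rfl rfl] at h2
  unfold knightRegion
  omega

/-- integer version of `K0` -/
def Kz (n : ℕ) (o : O n) (x : E n) : ℤ :=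
  (if (x.1 : ℕ) = o.1 + 1 then (1 : ℤ) else 0) *
    ((if (x.2 : ℕ) = o.2 then 1 else 0) - (if (x.2 : ℕ) + 1 = o.2 then 1 else 0)) +
  (if (x.1 : ℕ) = o.1 then (1 : ℤ) else 0) *
    ((if (x.2 : ℕ) = o.2 then 1 else 0) + (if (x.2 : ℕ) + 1 = o.2 then 1 else 0))

theorem Kz_cast (n : ℕ) (o : O n) (x : E n) : ((Kz n o x : ℤ) : ℚ) = K0 n o x := by
  unfold Kz K0
  simp only [Matrix.of_apply]
  push_cast
  rfl

theorem adj_iff (n : ℕ) (o : O n) (x : E n) : Adj (fc n x) (gc n o) ↔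
    ((x.1 : ℕ) = o.1 + 1 ∨ (x.1 : ℕ) = o.1) ∧ ((x.2 : ℕ) = o.2 ∨ (x.2 : ℕ) + 1 = o.2) := by
  unfold Adj fc gc
  simp only
  omega

theorem diag_iff (n : ℕ) (o : O n) (x : E n) :
    (gc n o).2 - (gc n o).1 = (fc n x).2 - (fc n x).1 + 1 ↔ (x.1 : ℕ) = o.1 + 1 := by
  unfold fc gc
  simp only
  omega

theorem npow (N : ℕ) : (-1 : ℤ) ^ N = if N % 2 = 0 then 1 else -1 := by
  rcases Nat.even_or_odd N with h | h
  · rw [h.neg_one_pow, if_pos (Nat.even_iff.mp h)]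
  · rw [h.neg_one_pow, if_neg (by rw [Nat.odd_iff.mp h]; norm_num)]

theorem kast_eq (n : ℕ) (R : Finset (ℤ × ℤ)) (o : O n) (x : E n) : kast R (gc n o) (fc n x) =
    if ((x.1 : ℕ) = o.1 + 1 ∨ (x.1 : ℕ) = o.1) ∧ ((x.2 : ℕ) = o.2 ∨ (x.2 : ℕ) + 1 = o.2) then
      (if (x.1 : ℕ) = o.1 + 1 then (-1) ^ (above R (fc n x) + below R (gc n o)) else 1) else 0 := by
  unfold kast
  rw [if_congr (adj_iff n o x) rfl rfl]
  rw [if_congr (diag_iff n o x) rfl rfl]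

end Pool.Agent.Q321.KM
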