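import Mathlib
import Pool.Agent.Q321.KM.Region

/-!
# Signs of the Kasteleyn matrix of the diamond without a knight's-move pair
-/

set_option autoImplicit false

namespace Pool.Agent.Q321.KM

open Finset Pool.Agent.Helper848 Pool.Agent.Helper848.AztecDet

/-- row gauge, odd order -/
def aoo (h : ℕ) (o : O (2 * h + 1)) : ℕ :=
  (if (o.1 : ℕ) = h ∧ (o.2 : ℕ) ≤ h then 1 else 0) + (if h + 1 ≤ (o.1 : ℕ) then 1 else 0)

/-- column gauge, odd order -/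
def bxo (h : ℕ) (x : E (2 * h + 1)) : ℕ :=
  (if (x.1 : ℕ) = h ∧ (x.2 : ℕ) ≤ h then 1 else 0) + (if h + 1 ≤ (x.1 : ℕ) then 1 else 0)

theorem sign_odd (h : ℕ) (h0 : 1 ≤ h) (o : O (2 * h + 1)) (x : E (2 * h + 1))
    (ho : ¬ ((o.1 : ℕ) = h ∧ (o.2 : ℕ) = h)) (hx : ¬ ((x.1 : ℕ) = h ∧ (x.2 : ℕ) = h + 1)) :
    (if ((o.1 : ℕ) = h ∧ (o.2 : ℕ) = h + 1) ∧ ((x.1 : ℕ) = h ∧ (x.2 : ℕ) = h) then (-1 : ℤ)
      else Kz (2 * h + 1) o x) =
    (-1) ^ aoo h o * (-1) ^ bxo h x * kast (knightRegion (2 * h + 1)) (gc (2 * h + 1) o) (fc (2 * h + 1) x) := by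
  have hA := above_knight (n := 2 * h + 1) (by omega) x
  have hB := below_knight (n := 2 * h + 1) (by omega) o
  rw [kast_eq]
  set Aa := above (knightRegion (2 * h + 1)) (fc (2 * h + 1) x)
  set Bb := below (knightRegion (2 * h + 1)) (gc (2 * h + 1) o)
  obtain ⟨⟨j, hj⟩, ⟨i, hi⟩⟩ := o
  obtain ⟨⟨m, hm⟩, ⟨k, hk⟩⟩ := x
  simp only at hA hB ho hx ⊢
  push_cast at hA hB
  by_cases hadj : (m = j + 1 ∨ m = j) ∧ (k = i ∨ k + 1 = i)
  · rw [if_pos hadj]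
    obtain ⟨h1 | h1, h2 | h2⟩ := hadj
    · subst h1 h2
      have hK : Kz (2 * h + 1) (⟨j, hj⟩, ⟨k, hi⟩) (⟨j + 1, hm⟩, ⟨k, hk⟩) = 1 := by simp [Kz]
      have e1 : (if j + 1 = j + 1 then (-1 : ℤ) ^ (Aa + Bb) else 1) = (-1) ^ (Aa + Bb) := if_pos rfl
      rw [hK, e1, ← pow_add, ← pow_add, npow]
      unfold aoo bxo
      simp only
      split_ifs at hA hB ⊢ <;> omega
    · subst h1 h2
      have hK : Kz (2 * h + 1) (⟨j, hj⟩, ⟨k + 1, hi⟩) (⟨j + 1, hm⟩, ⟨k, hk⟩) = -1 := by simp [Kz]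
      have e1 : (if j + 1 = j + 1 then (-1 : ℤ) ^ (Aa + Bb) else 1) = (-1) ^ (Aa + Bb) := if_pos rfl
      rw [hK, e1, ← pow_add, ← pow_add, npow]
      unfold aoo bxo
      simp only
      split_ifs at hA hB ⊢ <;> omega
    · subst h1 h2
      have hK : Kz (2 * h + 1) (⟨m, hj⟩, ⟨k, hi⟩) (⟨m, hm⟩, ⟨k, hk⟩) = 1 := by simp [Kz]
      have e1 : (if m = m + 1 then (-1 : ℤ) ^ (Aa + Bb) else 1) = 1 := if_neg (by omega)
      rw [hK, e1, mul_one, ← pow_add, npow]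
      unfold aoo bxo
      simp only
      split_ifs <;> omega
    · subst h1 h2
      have hK : Kz (2 * h + 1) (⟨m, hj⟩, ⟨k + 1, hi⟩) (⟨m, hm⟩, ⟨k, hk⟩) = 1 := by simp [Kz]
      have e1 : (if m = m + 1 then (-1 : ℤ) ^ (Aa + Bb) else 1) = 1 := if_neg (by omega)
      rw [hK, e1, mul_one, ← pow_add, npow]
      unfold aoo bxo
      simp only
      split_ifs <;> omega
  · rw [if_neg hadj, mul_zero]
    unfold Kz
    simp only
    split_ifs <;> omega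

/-- row gauge, even order -/
def aoe (h : ℕ) (o : O (2 * h)) : ℕ := (o.1 : ℕ) + (if h ≤ (o.1 : ℕ) then 1 else 0)

/-- column gauge, even order -/
def bxe (h : ℕ) (x : E (2 * h)) : ℕ := (x.1 : ℕ) + (if h ≤ (x.1 : ℕ) then 1 else 0)

theorem sign_even (h : ℕ) (h0 : 1 ≤ h) (o : O (2 * h)) (x : E (2 * h))
    (ho : ¬ ((o.1 : ℕ) + 1 = h ∧ (o.2 : ℕ) = h + 1)) (hx : ¬ ((x.1 : ℕ) = h ∧ (x.2 : ℕ) + 1 = h)) :
    (if ((o.1 : ℕ) + 1 = h ∧ (o.2 : ℕ) = h) ∧ ((x.1 : ℕ) = h ∧ (x.2 : ℕ) = h) then (-1 : ℤ)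
      else Kz (2 * h) o x) =
    (-1) ^ aoe h o * (-1) ^ bxe h x * kast (knightRegion (2 * h)) (gc (2 * h) o) (fc (2 * h) x) := by
  have hA := above_knight (n := 2 * h) (by omega) x
  have hB := below_knight (n := 2 * h) (by omega) o
  rw [kast_eq]
  set Aa := above (knightRegion (2 * h)) (fc (2 * h) x)
  set Bb := below (knightRegion (2 * h)) (gc (2 * h) o)
  obtain ⟨⟨j, hj⟩, ⟨i, hi⟩⟩ := o
  obtain ⟨⟨m, hm⟩, ⟨k, hk⟩⟩ := x
  simp only at hA hB ho hx ⊢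
  push_cast at hA hB
  by_cases hadj : (m = j + 1 ∨ m = j) ∧ (k = i ∨ k + 1 = i)
  · rw [if_pos hadj]
    obtain ⟨h1 | h1, h2 | h2⟩ := hadj
    · subst h1 h2
      have hK : Kz (2 * h) (⟨j, hj⟩, ⟨k, hi⟩) (⟨j + 1, hm⟩, ⟨k, hk⟩) = 1 := by simp [Kz]
      have e1 : (if j + 1 = j + 1 then (-1 : ℤ) ^ (Aa + Bb) else 1) = (-1) ^ (Aa + Bb) := if_pos rfl
      rw [hK, e1, ← pow_add, ← pow_add, npow]
      unfold aoe bxe
      simp only
      split_ifs at hA hB ⊢ <;> omega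
    · subst h1 h2
      have hK : Kz (2 * h) (⟨j, hj⟩, ⟨k + 1, hi⟩) (⟨j + 1, hm⟩, ⟨k, hk⟩) = -1 := by simp [Kz]
      have e1 : (if j + 1 = j + 1 then (-1 : ℤ) ^ (Aa + Bb) else 1) = (-1) ^ (Aa + Bb) := if_pos rfl
      rw [hK, e1, ← pow_add, ← pow_add, npow]
      unfold aoe bxe
      simp only
      split_ifs at hA hB ⊢ <;> omega
    · subst h1 h2
      have hK : Kz (2 * h) (⟨m, hj⟩, ⟨k, hi⟩) (⟨m, hm⟩, ⟨k, hk⟩) = 1 := by simp [Kz]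
      have e1 : (if m = m + 1 then (-1 : ℤ) ^ (Aa + Bb) else 1) = 1 := if_neg (by omega)
      rw [hK, e1, mul_one, ← pow_add, npow]
      unfold aoe bxe
      simp only
      split_ifs <;> omega
    · subst h1 h2
      have hK : Kz (2 * h) (⟨m, hj⟩, ⟨k + 1, hi⟩) (⟨m, hm⟩, ⟨k, hk⟩) = 1 := by simp [Kz]
      have e1 : (if m = m + 1 then (-1 : ℤ) ^ (Aa + Bb) else 1) = 1 := if_neg (by omega)
      rw [hK, e1, mul_one, ← pow_add, npow]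
      unfold aoe bxe
      simp only
      split_ifs <;> omega
  · rw [if_neg hadj, mul_zero]
    unfold Kz
    simp only
    split_ifs <;> omega

end Pool.Agent.Q321.KM
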