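import Mathlib
import Pool.Agent.Q321.KM.Mast

/-!
# The sums needed for the centre of the Aztec diamond
-/

set_option autoImplicit false

namespace Pool.Agent.Q321.KM

open Polynomial Finset

/-- partial fractions of `h! / (x (x+1) ... (x+h))` -/
theorem partial_fractions (h : ℕ) : ∀ x : ℚ, (∀ r : ℕ, r ≤ h → x + r ≠ 0) →
    ∑ r ∈ range (h + 1), (-1) ^ r * (h.choose r : ℚ) / (x + r) =
      (h.factorial : ℚ) / ∏ r ∈ range (h + 1), (x + r) := by
  induction h with
  | zero => intro x _; simp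
  | succ h ih =>
    intro x hx
    have i1 := ih x (fun r hr => hx r (by omega))
    have i2 := ih (x + 1) (fun r hr => by
      have := hx (r + 1) (by omega)
      push_cast at this
      intro hc; apply this; linarith)
    have e1 : ∑ r ∈ range (h + 1 + 1), (-1) ^ r * ((h + 1).choose r : ℚ) / (x + r) =
        ∑ r ∈ range (h + 1), (-1) ^ r * (h.choose r : ℚ) / (x + r) -
        ∑ r ∈ range (h + 1), (-1) ^ r * (h.choose r : ℚ) / (x + 1 + r) := by
      have e2 : ∑ r ∈ range (h + 1), (-1) ^ r * (h.choose r : ℚ) / (x + r) =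
          ∑ r ∈ range (h + 1 + 1), (-1) ^ r * (h.choose r : ℚ) / (x + r) := by
        rw [Finset.sum_range_succ _ (h + 1), Nat.choose_succ_self]; simp
      rw [e2, Finset.sum_range_succ' _ (h + 1), Finset.sum_range_succ' _ (h + 1)]
      simp only [Nat.choose_zero_right]
      rw [add_sub_right_comm, ← Finset.sum_sub_distrib]
      congr 1
      refine Finset.sum_congr rfl fun r _ => ?_
      rw [Nat.choose_succ_succ]
      push_cast
      rw [show x + 1 + (r : ℚ) = x + (r + 1) from by ring]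
      ring
    rw [e1, i1, i2]
    have p1 : ∏ r ∈ range (h + 1 + 1), (x + r) = (∏ r ∈ range (h + 1), (x + r)) * (x + (h + 1)) := by
      rw [Finset.prod_range_succ]; push_cast; rfl
    have p2 : ∏ r ∈ range (h + 1 + 1), (x + r) = (∏ r ∈ range (h + 1), (x + 1 + r)) * x := by
      rw [Finset.prod_range_succ']
      push_cast
      rw [add_zero]
      congr 1
      refine Finset.prod_congr rfl fun r _ => ?_
      ring
    have n1 : ∏ r ∈ range (h + 1), (x + r) ≠ 0 := Finset.prod_ne_zero_iff.mpr fun r hr =>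
      hx r (by rw [Finset.mem_range] at hr; omega)
    have n2 : ∏ r ∈ range (h + 1), (x + 1 + r) ≠ 0 := Finset.prod_ne_zero_iff.mpr fun r hr => by
      rw [Finset.mem_range] at hr
      have := hx (r + 1) (by omega)
      push_cast at this
      intro hc; apply this; linarith
    have n3 : x + (h + 1 : ℚ) ≠ 0 := by have := hx (h + 1) le_rfl; push_cast at this; exact this
    have n0 : x ≠ 0 := by have := hx 0 (by omega); simpa using this
    rw [p1] at p2 ⊢
    rw [Nat.factorial_succ]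
    push_cast
    set P := ∏ r ∈ range (h + 1), (x + (r : ℚ)) with hP
    set Q := ∏ r ∈ range (h + 1), (x + 1 + (r : ℚ)) with hQ
    have hQ' : Q = P * (x + (h + 1)) / x := by rw [p2]; field_simp
    rw [hQ']
    field_simp
    ring

/-- normalised central binomial coefficients -/
noncomputable def cb (k : ℕ) : ℚ := (Nat.centralBinom k : ℚ) / 4 ^ k

theorem cb_succ (k : ℕ) : (2 * (k : ℚ) + 2) * cb (k + 1) = (2 * k + 1) * cb k := by
  have h := Nat.succ_mul_centralBinom_succ k
  have h2 : ((k : ℚ) + 1) * (Nat.centralBinom (k + 1) : ℚ) = 2 * (2 * k + 1) * Nat.centralBinom k := by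
    exact_mod_cast h
  unfold cb
  rw [pow_succ]
  field_simp
  linarith

theorem prod_half (k : ℕ) : ∏ j ∈ range k, ((j : ℚ) + 1 / 2) = (k.factorial : ℚ) * cb k := by
  induction k with
  | zero => simp [cb]
  | succ k ih =>
    rw [Finset.prod_range_succ, ih, Nat.factorial_succ]
    have h := cb_succ k
    push_cast
    have : cb (k + 1) = (2 * k + 1) * cb k / (2 * (k : ℚ) + 2) := by
      rw [← h]; field_simp
    rw [this]
    field_simp

theorem prod_neg_half (k : ℕ) : ∏ r ∈ range k, ((1 / 2 - k : ℚ) + r) =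
    (-1) ^ k * ((k.factorial : ℚ) * cb k) := by
  rw [← prod_half, ← Finset.prod_range_reflect, show ((-1 : ℚ)) ^ k = ∏ _j ∈ range k, (-1 : ℚ) from by simp,
    ← Finset.prod_mul_distrib]
  refine Finset.prod_congr rfl fun r hr => ?_
  rw [Finset.mem_range] at hr
  rw [Nat.cast_sub (by omega), Nat.cast_sub (by omega)]
  push_cast
  ring

theorem S_eq (h ε : ℕ) (hp : (h + ε) % 2 = 1) : S h ε =
    1 / 2 * ((h.factorial : ℚ) / ∏ r ∈ range (h + 1), (((ε : ℚ) - h) / 2 + r)) := by
  rw [← partial_fractions]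
  · unfold S term
    rw [Finset.mul_sum]
    refine Finset.sum_congr rfl fun r _ => ?_
    have h1 := den_ne hp r
    have h2 : ((ε : ℚ) - h) / 2 + r = (2 * (r : ℚ) + ε - h) / 2 := by ring
    rw [h2]
    field_simp
  · intro r _
    have h1 := den_ne hp r
    intro hc; apply h1; linarith

/-- the constant for even `h = 2k` -/
noncomputable def κe (k : ℕ) : ℚ := (-1) ^ k * (2 * k + 1) * cb k ^ 2 / (2 * Nat.centralBinom k)

/-- the constant for odd `h = 2k+1` -/
noncomputable def κo (k : ℕ) : ℚ := (-1) ^ (k + 1) * (k + 1) * cb (k + 1) ^ 2 / ((2 * k + 1).choose k : ℕ)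

theorem cb_ne (k : ℕ) : cb k ≠ 0 := by
  unfold cb
  have := Nat.centralBinom_pos k
  positivity

theorem κe_S (k : ℕ) : κe k * S (2 * k) 1 = 1 / 2 := by
  rw [S_eq _ _ (by omega)]
  have e1 : ∀ r : ℕ, (((1 : ℕ) : ℚ) - (2 * k : ℕ)) / 2 + r = (1 / 2 - k : ℚ) + r := by
    intro r; push_cast; ring
  simp only [e1]
  rw [show 2 * k + 1 = k + (k + 1) from by omega, Finset.prod_range_add, prod_neg_half]
  have e2 : ∏ x ∈ range (k + 1), ((1 / 2 - k : ℚ) + ((k + x : ℕ) : ℚ)) = (k.factorial : ℚ) * cb k * (k + 1 / 2) := by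
    rw [← prod_half, ← Finset.prod_range_succ]
    refine Finset.prod_congr rfl fun r _ => ?_
    push_cast; ring
  rw [e2]
  have e3 : ((2 * k).factorial : ℚ) = Nat.centralBinom k * (k.factorial : ℚ) ^ 2 := by
    have h := Nat.choose_mul_factorial_mul_factorial (show k ≤ 2 * k by omega)
    rw [show 2 * k - k = k from by omega, ← Nat.centralBinom_eq_two_mul_choose] at h
    rw [← h]; push_cast; ring
  rw [e3]
  unfold κe
  have h1 := cb_ne k
  have h2 : (Nat.centralBinom k : ℚ) ≠ 0 := by exact_mod_cast (Nat.centralBinom_pos k).ne'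
  have h3 : (k.factorial : ℚ) ≠ 0 := by exact_mod_cast k.factorial_ne_zero
  have h4 : ((-1 : ℚ)) ^ k ≠ 0 := pow_ne_zero _ (by norm_num)
  have h5 : (k : ℚ) + 1 / 2 ≠ 0 := by positivity
  field_simp
  try ring

theorem κo_S (k : ℕ) : κo k * S (2 * k + 1) 0 = 1 / 2 := by
  rw [S_eq _ _ (by omega)]
  have e1 : ∀ r : ℕ, (((0 : ℕ) : ℚ) - (2 * k + 1 : ℕ)) / 2 + r = (1 / 2 - (k + 1 : ℕ) : ℚ) + r := by
    intro r; push_cast; ring
  simp only [e1]
  rw [show 2 * k + 1 + 1 = (k + 1) + (k + 1) from by omega, Finset.prod_range_add, prod_neg_half]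
  have e2 : ∏ x ∈ range (k + 1), ((1 / 2 - (k + 1 : ℕ) : ℚ) + ((k + 1 + x : ℕ) : ℚ)) =
      ((k + 1).factorial : ℚ) * cb (k + 1) := by
    rw [← prod_half]
    refine Finset.prod_congr rfl fun r _ => ?_
    push_cast; ring
  rw [e2]
  have e3 : ((2 * k + 1).factorial : ℚ) = ((2 * k + 1).choose k : ℕ) * (k.factorial : ℚ) *
      ((k + 1).factorial : ℚ) := by
    have h := Nat.choose_mul_factorial_mul_factorial (show k ≤ 2 * k + 1 by omega)
    rw [show 2 * k + 1 - k = k + 1 from by omega] at h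
    rw [← h]; push_cast; ring
  rw [e3, Nat.factorial_succ]
  unfold κo
  have h1 := cb_ne (k + 1)
  have h2 : (((2 * k + 1).choose k : ℕ) : ℚ) ≠ 0 := by
    exact_mod_cast (Nat.choose_pos (show k ≤ 2 * k + 1 by omega)).ne'
  have h3 : (k.factorial : ℚ) ≠ 0 := by exact_mod_cast k.factorial_ne_zero
  have h4 : ((-1 : ℚ)) ^ (k + 1) ≠ 0 := pow_ne_zero _ (by norm_num)
  push_cast
  field_simp
  try ring

theorem alt_choose (n m : ℕ) : ∑ r ∈ range m, (-1 : ℚ) ^ r * ((n + 1).choose (r + 1) : ℚ) =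
    1 - (-1) ^ m * (n.choose m : ℚ) := by
  induction m with
  | zero => simp
  | succ m ih =>
    rw [Finset.sum_range_succ, ih, Nat.choose_succ_succ]
    push_cast
    ring

theorem term_reflect_odd (k r : ℕ) (hr : r ≤ k) : term (2 * k + 1) 0 (2 * k + 1 - r) =
    term (2 * k + 1) 0 r := by
  unfold term
  rw [Nat.choose_symm (by omega), Nat.cast_sub (by omega)]
  have h1 : (-1 : ℚ) ^ (2 * k + 1 - r) = - (-1) ^ r := by
    have : (-1 : ℚ) ^ (2 * k + 1 - r) * (-1) ^ r = -1 := by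
      rw [← pow_add, Nat.sub_add_cancel (by omega), pow_succ, pow_mul]; simp
    rcases neg_one_pow_eq_or ℚ r with h2 | h2 <;> rw [h2] at this ⊢ <;> linarith
  rw [h1]
  have h2 : (2 * (((2 * k + 1 : ℕ) : ℚ) - (r : ℚ)) + ((0 : ℕ) : ℚ) - ((2 * k + 1 : ℕ) : ℚ)) =
      - (2 * (r : ℚ) + ((0 : ℕ) : ℚ) - ((2 * k + 1 : ℕ) : ℚ)) := by push_cast; ring
  rw [h2, neg_mul, neg_div_neg_eq]

theorem half_sum_odd (k : ℕ) : 2 * ∑ r ∈ range (k + 1), term (2 * k + 1) 0 r = S (2 * k + 1) 0 := by
  unfold S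
  rw [show 2 * k + 1 + 1 = (k + 1) + (k + 1) from by omega,
    Finset.sum_range_add (term (2 * k + 1) 0) (k + 1) (k + 1),
    ← Finset.sum_range_reflect (fun x => term (2 * k + 1) 0 (k + 1 + x)), two_mul]
  congr 1
  refine Finset.sum_congr rfl fun r hr => ?_
  rw [Finset.mem_range] at hr
  rw [show k + 1 + (k + 1 - 1 - r) = 2 * k + 1 - r from by omega, term_reflect_odd k r (by omega)]

theorem term_reflect_even (k r : ℕ) (hr : r < k) : term (2 * k) 1 (2 * k - 1 - r) -
    term (2 * k) 1 r = - ((-1) ^ r * ((2 * k + 1).choose (r + 1) : ℚ)) / (2 * k + 1) := by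
  unfold term
  have hc : (2 * k).choose (2 * k - 1 - r) = (2 * k).choose (r + 1) := by
    rw [show 2 * k - 1 - r = 2 * k - (r + 1) from by omega, Nat.choose_symm (by omega)]
  rw [hc, Nat.cast_sub (by omega), Nat.cast_sub (by omega)]
  have h1 : (-1 : ℚ) ^ (2 * k - 1 - r) = - (-1) ^ r := by
    have : (-1 : ℚ) ^ (2 * k - 1 - r) * (-1) ^ r = -1 := by
      rw [← pow_add, Nat.sub_add_cancel (by omega)]
      exact Odd.neg_one_pow (by rw [Nat.odd_iff]; omega)
    rcases neg_one_pow_eq_or ℚ r with h2 | h2 <;> rw [h2] at this ⊢ <;> linarith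
  rw [h1]
  have hd := den_ne (h := 2 * k) (ε := 1) (by omega) r
  have h2 : (2 * (((2 * k : ℕ) : ℚ) - ((1 : ℕ) : ℚ) - (r : ℚ)) + ((1 : ℕ) : ℚ) - ((2 * k : ℕ) : ℚ)) =
      - (2 * (r : ℚ) + ((1 : ℕ) : ℚ) - ((2 * k : ℕ) : ℚ)) := by push_cast; ring
  rw [h2, neg_mul, neg_div_neg_eq, ← sub_div]
  have h3 : (((2 * k).choose (r + 1) : ℕ) : ℚ) * (r + 1) = ((2 * k).choose r : ℕ) * (2 * k - r) := by
    have := Nat.choose_succ_right_eq (2 * k) r
    have h4 : (((2 * k).choose (r + 1) : ℕ) : ℚ) * ((r + 1 : ℕ) : ℚ) =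
        ((2 * k).choose r : ℕ) * ((2 * k - r : ℕ) : ℚ) := by exact_mod_cast this
    rw [Nat.cast_sub (by omega)] at h4
    push_cast at h4
    exact h4
  have h5 : (((2 * k + 1).choose (r + 1) : ℕ) : ℚ) = ((2 * k).choose r : ℕ) + ((2 * k).choose (r + 1) : ℕ) := by
    rw [Nat.choose_succ_succ]; push_cast; rfl
  rw [h5]
  have h6 : (2 * (k : ℚ) + 1) ≠ 0 := by positivity
  rw [div_eq_div_iff hd h6]
  push_cast
  have h7 : (((2 * k).choose (r + 1) : ℕ) : ℚ) = ((2 * k).choose r : ℕ) * (2 * k - r) / (r + 1) := by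
    rw [← h3]; field_simp
  rw [h7]
  field_simp
  ring

theorem half_sum_even (k : ℕ) : 2 * ∑ r ∈ range k, term (2 * k) 1 r = S (2 * k) 1 -
    (-1) ^ k * (Nat.centralBinom k : ℚ) / (2 * k + 1) := by
  have h1 : S (2 * k) 1 = ∑ r ∈ range k, term (2 * k) 1 r + ∑ r ∈ range k, term (2 * k) 1 (2 * k - 1 - r) +
      term (2 * k) 1 (2 * k) := by
    unfold S
    rw [Finset.sum_range_succ]
    congr 1
    conv_lhs => rw [show 2 * k = k + k from by omega]
    rw [Finset.sum_range_add, ← Finset.sum_range_reflect (fun x => term (k + k) 1 (k + x)),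
      show k + k = 2 * k from by omega]
    congr 1
    refine Finset.sum_congr rfl fun r hr => ?_
    rw [Finset.mem_range] at hr
    congr 1
    omega
  have h2 : ∑ r ∈ range k, term (2 * k) 1 (2 * k - 1 - r) - ∑ r ∈ range k, term (2 * k) 1 r =
      - (1 - (-1) ^ k * (Nat.centralBinom k : ℚ)) / (2 * k + 1) := by
    rw [← Finset.sum_sub_distrib, Nat.centralBinom_eq_two_mul_choose, ← alt_choose (2 * k) k, ← Finset.sum_neg_distrib,
      Finset.sum_div]
    refine Finset.sum_congr rfl fun r hr => ?_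
    rw [Finset.mem_range] at hr
    rw [term_reflect_even k r hr]
  have h3 : term (2 * k) 1 (2 * k) = 1 / (2 * k + 1) := by
    unfold term
    rw [Nat.choose_self, pow_mul]
    push_cast
    norm_num
    congr 1
    ring
  rw [h3] at h1
  have h4 : - (1 - (-1) ^ k * (Nat.centralBinom k : ℚ)) / (2 * k + 1) =
    - (1 / (2 * (k : ℚ) + 1)) + (-1) ^ k * (Nat.centralBinom k : ℚ) / (2 * k + 1) := by ring
  rw [h4] at h2
  linarith

end Pool.Agent.Q321.KM
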