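import Mathlib
import Pool.Agent.Q321.KM.Bez
import Pool.Agent.Q321.KM.Sums

/-!
# Central values of the columns of the inverse Kasteleyn matrix of the Aztec diamond
-/

set_option autoImplicit false

namespace Pool.Agent.Q321.KM

open Polynomial Finset Pool.Agent.Helper848.AztecDet

theorem coeff_of_one_sub {P V : ℚ[X]} (h : (1 - X) * P = V) (l : ℕ) :
    P.coeff l = ∑ i ∈ range (l + 1), V.coeff i := by
  induction l with
  | zero =>
    have := congrArg (fun p => coeff p 0) h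
    simp only [sub_mul, one_mul, coeff_sub, coeff_X_mul_zero, sub_zero] at this
    rw [this]; simp
  | succ l ih =>
    have := congrArg (fun p => coeff p (l + 1)) h
    simp only [sub_mul, one_mul, coeff_sub, coeff_X_mul] at this
    rw [Finset.sum_range_succ, ← ih, ← this]; ring

theorem coeff_of_one_add {P V : ℚ[X]} (h : (1 + X) * P = V) (l : ℕ) :
    P.coeff l = ∑ i ∈ range (l + 1), (-1) ^ (l + i) * V.coeff i := by
  induction l with
  | zero =>
    have := congrArg (fun p => coeff p 0) h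
    simp only [add_mul, one_mul, coeff_add, coeff_X_mul_zero, add_zero] at this
    rw [this]; simp
  | succ l ih =>
    have := congrArg (fun p => coeff p (l + 1)) h
    simp only [add_mul, one_mul, coeff_add, coeff_X_mul] at this
    rw [Finset.sum_range_succ, ← this]
    have e : ∑ i ∈ range (l + 1), (-1 : ℚ) ^ (l + 1 + i) * V.coeff i = - P.coeff l := by
      rw [ih, ← Finset.sum_neg_distrib]
      refine Finset.sum_congr rfl fun i _ => ?_
      rw [show l + 1 + i = (l + i) + 1 from by omega, pow_succ]; ring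
    rw [e, ← two_mul, pow_mul]; simp

/-- the sum of the coefficients below the middle -/
noncomputable def Lam (h ε : ℕ) (κ : ℚ) : ℚ := ∑ i ∈ range h, (U h ε κ).coeff i

variable {h ε : ℕ} {κ : ℚ}

theorem sum_le_mid (hp : (h + ε) % 2 = 1) : ∑ i ∈ range (h + 1), (U h ε κ).coeff i =
    1 / 2 + Lam h ε κ := by
  rw [Finset.sum_range_succ, U_coeff_self hp, Lam]; ring

theorem alt_sum_mid (hp : (h + ε) % 2 = 1) : ∑ i ∈ range (h + 1), (-1) ^ (h + i) *
    ((X ^ h - U h ε κ : ℚ[X]).coeff i) = 1 / 2 + Lam h ε κ := by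
  rw [Finset.sum_range_succ, coeff_sub, coeff_X_pow, if_pos rfl, U_coeff_self hp, ← two_mul, pow_mul,
    Lam]
  have e : ∀ i ∈ range h, (-1) ^ (h + i) * ((X ^ h - U h ε κ : ℚ[X]).coeff i) = (U h ε κ).coeff i := by
    intro i hi
    rw [Finset.mem_range] at hi
    rw [coeff_sub, coeff_X_pow, if_neg (by omega), zero_sub]
    by_cases h1 : (i + ε) % 2 = 1
    · rw [U_coeff_other hp i (by omega) h1]; simp
    · have : (-1 : ℚ) ^ (h + i) = -1 := Odd.neg_one_pow (by rw [Nat.odd_iff]; omega)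
      rw [this]; ring
  rw [Finset.sum_congr rfl e]
  norm_num
  ring

/-- columns for odd order -/
theorem odd_cols (hp : (h + ε) % 2 = 1) (hε : ε ≤ 1) (h0 : 1 ≤ h) (hκ : κ * S h ε = 1 / 2) :
    ∃ G1 G2 : ℕ → ℚ[X],
      (∀ o : O (2 * h + 1), ∑ x : E (2 * h + 1), K0 (2 * h + 1) o x * (G1 x.1).coeff x.2 =
        if (o.1 : ℕ) = h ∧ (o.2 : ℕ) = h then 1 else 0) ∧
      (∀ o : O (2 * h + 1), ∑ x : E (2 * h + 1), K0 (2 * h + 1) o x * (G2 x.1).coeff x.2 =
        if (o.1 : ℕ) = h ∧ (o.2 : ℕ) = h + 1 then 1 else 0) ∧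
      (G1 h).coeff h = 1 / 2 + Lam h ε κ ∧
      (G1 h).coeff (h + 1) = - (U h ε κ).coeff (h + 1) - (1 / 2 + Lam h ε κ) ∧
      (∃ b : ℚ, (-1) ^ (h + 1) * b = (U h ε κ).coeff (2 * h + 1) ∧
        (G2 h).coeff h = - Lam h ε κ + b * ((((1 : ℚ[X]) - X ^ 2) ^ h).coeff h -
          (X * ((1 : ℚ[X]) - X ^ 2) ^ h).coeff h) ∧
        (G2 h).coeff (h + 1) = 1 / 2 + Lam h ε κ + b * ((((1 : ℚ[X]) - X ^ 2) ^ h).coeff (h + 1) -
          (((1 : ℚ[X]) - X ^ 2) ^ h).coeff h)) := by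
  obtain ⟨A, B, hb, hB, hA, hc⟩ := exists_bez hp hε h0 hκ
  have hF : (1 + X) * ((1 + X) ^ h * A) = X ^ h - U h ε κ := by rw [← hA]; ring
  have hG1 : Gf (2 * h + 1) (h + 1) A B h = (1 + X) ^ h * A := by
    unfold Gf
    rw [if_pos (by omega), show h + 1 - 1 - h = 0 from by omega]
    ring
  have hsh := hb.shift (by omega) (by omega)
  have hG2 : Gf (2 * h + 1) (h + 1)
      (X * A - C (-B.coeff (h + 1 - 1)) * (1 - X) ^ (2 * h + 1 + 1 - (h + 1)))
      (X * B + C (-B.coeff (h + 1 - 1)) * (1 + X) ^ (h + 1)) h =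
      X * ((1 + X) ^ h * A) + C (B.coeff h) * ((1 - X ^ 2) ^ h - X * (1 - X ^ 2) ^ h) := by
    unfold Gf
    rw [if_pos (by omega), show h + 1 - 1 - h = 0 from by omega,
      show 2 * h + 1 + 1 - (h + 1) = h + 1 from by omega, Nat.add_sub_cancel, map_neg,
      show (1 - X ^ 2 : ℚ[X]) = (1 + X) * (1 - X) from by ring, mul_pow]
    ring
  have f1 : ((1 + X) ^ h * A).coeff h = 1 / 2 + Lam h ε κ := by
    rw [coeff_of_one_add hF, alt_sum_mid hp]
  have f2 : ((1 + X) ^ h * A).coeff (h + 1) = - (U h ε κ).coeff (h + 1) - (1 / 2 + Lam h ε κ) := by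
    have := congrArg (fun p => coeff p (h + 1)) hF
    simp only [add_mul, one_mul, coeff_add, coeff_X_mul, coeff_sub, coeff_X_pow] at this
    rw [if_neg (by omega), f1] at this
    linarith
  have f3 : (X * ((1 + X) ^ h * A)).coeff h = - Lam h ε κ := by
    have := congrArg (fun p => coeff p h) hF
    simp only [add_mul, one_mul, coeff_add, coeff_sub, coeff_X_pow, if_true] at this
    rw [f1, U_coeff_self hp] at this
    linarith
  refine ⟨Gf (2 * h + 1) (h + 1) A B, Gf (2 * h + 1) (h + 1)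
      (X * A - C (-B.coeff (h + 1 - 1)) * (1 - X) ^ (2 * h + 1 + 1 - (h + 1)))
      (X * B + C (-B.coeff (h + 1 - 1)) * (1 + X) ^ (h + 1)), ?_, ?_, ?_, ?_, B.coeff h, hc, ?_, ?_⟩
  · intro o
    rw [Gf_sol hb (by omega) o]
    simp only [Nat.add_right_cancel_iff]
  · intro o
    rw [Gf_sol hsh (by omega) o]
    simp only [Nat.add_right_cancel_iff]
  · rw [hG1, f1]
  · rw [hG1, f2]
  · rw [hG2, coeff_add, f3, coeff_C_mul, coeff_sub]
  · rw [hG2, coeff_add, coeff_X_mul, f1, coeff_C_mul, coeff_sub, coeff_X_mul]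

/-- columns for even order -/
theorem even_cols (hp : (h + ε) % 2 = 1) (hε : ε ≤ 1) (h0 : 1 ≤ h) (hκ : κ * S h ε = 1 / 2) :
    ∃ G1 G2 : ℕ → ℚ[X],
      (∀ o : O (2 * h), ∑ x : E (2 * h), K0 (2 * h) o x * (G1 x.1).coeff x.2 =
        if (o.1 : ℕ) + 1 = h ∧ (o.2 : ℕ) = h then 1 else 0) ∧
      (∀ o : O (2 * h), ∑ x : E (2 * h), K0 (2 * h) o x * (G2 x.1).coeff x.2 =
        if (o.1 : ℕ) + 1 = h ∧ (o.2 : ℕ) = h + 1 then 1 else 0) ∧
      ∃ b b1 : ℚ, (-1) ^ (h + 1) * b = (U h ε κ).coeff (2 * h + 1) ∧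
        (-1) ^ (h + 1) * b1 = (U h ε κ).coeff (2 * h) - b * (-1) ^ h ∧
        (G1 h).coeff h = 1 / 2 + Lam h ε κ - b * (((1 : ℚ[X]) - X ^ 2) ^ h).coeff h ∧
        (G1 h).coeff (h - 1) = Lam h ε κ - b * (((1 : ℚ[X]) - X ^ 2) ^ h).coeff (h - 1) ∧
        (G2 h).coeff h = Lam h ε κ - b * (X * ((1 : ℚ[X]) - X ^ 2) ^ h).coeff h -
          b1 * (((1 : ℚ[X]) - X ^ 2) ^ h).coeff h ∧
        (G2 h).coeff (h - 1) = Lam h ε κ - (U h ε κ).coeff (h - 1) -
          b * (X * ((1 : ℚ[X]) - X ^ 2) ^ h).coeff (h - 1) -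
          b1 * (((1 : ℚ[X]) - X ^ 2) ^ h).coeff (h - 1) := by
  obtain ⟨A, B, hb, hB, hA, hc⟩ := exists_bez hp hε h0 hκ
  have hlow := hb.lower h0 (by omega) (by omega)
  have hsh := hlow.shift (by omega) (by omega)
  have hP : (1 - X) * ((1 - X) ^ h * B) = U h ε κ := by rw [← hB]; ring
  set b := B.coeff h with hbdef
  set B1 := B + C (-b) * (1 + X) ^ h with hB1
  set b1 := B1.coeff (h - 1) with hb1
  have hq : (1 - X ^ 2 : ℚ[X]) ^ h = (1 + X) ^ h * (1 - X) ^ h := by rw [← mul_pow]; ring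
  have hG1 : ∀ A' : ℚ[X], Gf (2 * h) h A' B1 h = (1 - X) ^ h * B + C (-b) * (1 - X ^ 2) ^ h := by
    intro A'
    unfold Gf
    rw [if_neg (by omega), Nat.sub_self, show 2 * h - h = h from by omega, hB1, hq]
    ring
  have hG2 : ∀ A' : ℚ[X], Gf (2 * h) h A' (X * B1 + C (-b1) * (1 + X) ^ h) h =
      X * ((1 - X) ^ h * B) + C (-b) * (X * (1 - X ^ 2) ^ h) + C (-b1) * (1 - X ^ 2) ^ h := by
    intro A'
    unfold Gf
    rw [if_neg (by omega), Nat.sub_self, show 2 * h - h = h from by omega, hB1, hq]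
    ring
  have p1 : ((1 - X) ^ h * B).coeff h = 1 / 2 + Lam h ε κ := by
    rw [coeff_of_one_sub hP, sum_le_mid hp]
  have p2 : ((1 - X) ^ h * B).coeff (h - 1) = Lam h ε κ := by
    rw [coeff_of_one_sub hP, Nat.sub_add_cancel h0, Lam]
  have p3 : ∀ l, (X * ((1 - X) ^ h * B)).coeff l = ((1 - X) ^ h * B).coeff l - (U h ε κ).coeff l := by
    intro l
    have := congrArg (fun p => coeff p l) hP
    simp only [sub_mul, one_mul, coeff_sub] at this
    linarith
  have hb1v : (-1) ^ (h + 1) * b1 = (U h ε κ).coeff (2 * h) - b * (-1) ^ h := by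
    have e1 : (1 - X : ℚ[X]) ^ (h + 1) * B1 = U h ε κ + C (-b) * ((1 - X ^ 2) ^ h - X * (1 - X ^ 2) ^ h) := by
      rw [← hB, hB1, hq]; ring
    have e2 := coeff_mul_add_eq_of_natDegree_le (natDegree_one_sub_pow (h + 1))
      (show B1.natDegree ≤ h - 1 from by have := hlow.degB; omega)
    rw [e1, coeff_one_sub_top, show h + 1 + (h - 1) = 2 * h from by omega, coeff_add, coeff_C_mul,
      coeff_sub, coeff_sq_even, Nat.choose_self] at e2
    have e3 : (X * ((1 : ℚ[X]) - X ^ 2) ^ h).coeff (2 * h) = 0 := by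
      rw [show 2 * h = (2 * (h - 1) + 1) + 1 from by omega, coeff_X_mul, coeff_sq_odd]
    rw [e3] at e2
    rw [← e2]
    push_cast
    ring
  refine ⟨Gf (2 * h) h ((1 + X) * A - C (-b) * (1 - X) ^ (2 * h + 1 - h)) B1,
    Gf (2 * h) h (X * ((1 + X) * A - C (-b) * (1 - X) ^ (2 * h + 1 - h)) -
      C (-b1) * (1 - X) ^ (2 * h + 1 - h)) (X * B1 + C (-b1) * (1 + X) ^ h), ?_, ?_,
      b, b1, hc, hb1v, ?_, ?_, ?_, ?_⟩
  · intro o
    rw [Gf_sol hlow (by omega) o]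
  · intro o
    rw [Gf_sol hsh (by omega) o]
  · rw [hG1, coeff_add, coeff_C_mul, p1]; ring
  · rw [hG1, coeff_add, coeff_C_mul, p2]; ring
  · rw [hG2, coeff_add, coeff_add, coeff_C_mul, coeff_C_mul, p3, p1, U_coeff_self hp]; ring
  · rw [hG2, coeff_add, coeff_add, coeff_C_mul, coeff_C_mul, p3, p2]; ring

end Pool.Agent.Q321.KM
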