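import Mathlib
import Pool.Agent.Q321.KM.Vals

/-!
# The four cases modulo four
-/

set_option autoImplicit false

namespace Pool.Agent.Q321.KM

open Polynomial Finset Pool.Agent.Helper848.AztecDet

theorem sum_pairs (f : ℕ → ℚ) (k : ℕ) : ∑ i ∈ range (2 * k), f i =
    ∑ r ∈ range k, (f (2 * r) + f (2 * r + 1)) := by
  induction k with
  | zero => simp
  | succ k ih =>
    rw [show 2 * (k + 1) = 2 * k + 1 + 1 from by ring, Finset.sum_range_succ, Finset.sum_range_succ,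
      ih, Finset.sum_range_succ]
    ring

theorem κe_cb (k : ℕ) : κe k * ((-1) ^ k * (Nat.centralBinom k : ℚ)) = (2 * k + 1) * cb k ^ 2 / 2 := by
  unfold κe
  have h2 : (Nat.centralBinom k : ℚ) ≠ 0 := by exact_mod_cast (Nat.centralBinom_pos k).ne'
  have h3 : ((-1 : ℚ) ^ k) * (-1) ^ k = 1 := by rw [← mul_pow]; norm_num
  rw [div_mul_eq_mul_div, div_eq_div_iff (by positivity) (by norm_num)]
  linear_combination (2 * (2 * (k : ℚ) + 1) * cb k ^ 2 * Nat.centralBinom k) * h3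

theorem κo_ch (k : ℕ) : κo k * ((-1) ^ k * (((2 * k + 1).choose k : ℕ) : ℚ)) =
    - ((k + 1) * cb (k + 1) ^ 2) := by
  unfold κo
  have h2 : (((2 * k + 1).choose k : ℕ) : ℚ) ≠ 0 := by
    exact_mod_cast (Nat.choose_pos (show k ≤ 2 * k + 1 by omega)).ne'
  have h3 : ((-1 : ℚ) ^ k) * (-1) ^ k = 1 := by rw [← mul_pow]; norm_num
  rw [div_mul_eq_mul_div, div_eq_iff h2, pow_succ]
  linear_combination (-((k : ℚ) + 1) * cb (k + 1) ^ 2 * ((2 * k + 1).choose k : ℕ)) * h3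

theorem Lam_even (k : ℕ) : Lam (2 * k) 1 (κe k) = - (1 / 4) + cb k ^ 2 / 4 := by
  unfold Lam
  rw [sum_pairs]
  have e : ∀ r ∈ range k, (U (2 * k) 1 (κe k)).coeff (2 * r) + (U (2 * k) 1 (κe k)).coeff (2 * r + 1) =
      - κe k * term (2 * k) 1 r := by
    intro r hr
    rw [Finset.mem_range] at hr
    rw [U_coeff_other (by omega) (2 * r) (by omega) (by omega), U_coeff_par (by omega), zero_add]
  rw [Finset.sum_congr rfl e, ← Finset.mul_sum]
  have h1 := half_sum_even k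
  have h2 := κe_S k
  have h3 := κe_cb k
  have h4 : (2 * (k : ℚ) + 1) ≠ 0 := by positivity
  have h5 : κe k * ((-1) ^ k * (Nat.centralBinom k : ℚ) / (2 * k + 1)) = cb k ^ 2 / 2 := by
    rw [mul_div_assoc', h3]; field_simp
  have h6 : κe k * (2 * ∑ r ∈ range k, term (2 * k) 1 r) = 1 / 2 - cb k ^ 2 / 2 := by
    rw [h1, mul_sub, h2, h5]
  linarith

theorem Lam_odd (k : ℕ) : Lam (2 * k + 1) 0 (κo k) = - (1 / 4) := by
  unfold Lam
  rw [Finset.sum_range_succ, sum_pairs]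
  have e : ∀ r ∈ range k, (U (2 * k + 1) 0 (κo k)).coeff (2 * r) +
      (U (2 * k + 1) 0 (κo k)).coeff (2 * r + 1) = - κo k * term (2 * k + 1) 0 r := by
    intro r hr
    rw [Finset.mem_range] at hr
    have h1 := U_coeff_par (h := 2 * k + 1) (ε := 0) (κ := κo k) (by omega) r
    rw [add_zero] at h1
    rw [U_coeff_other (by omega) (2 * r + 1) (by omega) (by omega), h1, add_zero]
  have h0 := U_coeff_par (h := 2 * k + 1) (ε := 0) (κ := κo k) (by omega) k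
  rw [add_zero] at h0
  rw [Finset.sum_congr rfl e, ← Finset.mul_sum, h0, ← mul_add, ← Finset.sum_range_succ]
  have h1 := half_sum_odd k
  have h2 := κo_S k
  have h6 : κo k * (2 * ∑ r ∈ range (k + 1), term (2 * k + 1) 0 r) = 1 / 2 := by
    rw [h1, h2]
  linarith

theorem neg_pow_two (k : ℕ) : (-1 : ℚ) ^ (2 * k) = 1 := by rw [pow_mul]; simp

/-- order `4k+1`, `k ≥ 1` -/
theorem case1 (k : ℕ) (hk : 1 ≤ k) : ∃ G1 G2 : ℕ → ℚ[X],
      (∀ o : O (2 * (2 * k) + 1), ∑ x : E (2 * (2 * k) + 1), K0 (2 * (2 * k) + 1) o x * (G1 x.1).coeff x.2 =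
        if (o.1 : ℕ) = 2 * k ∧ (o.2 : ℕ) = 2 * k then 1 else 0) ∧
      (∀ o : O (2 * (2 * k) + 1), ∑ x : E (2 * (2 * k) + 1), K0 (2 * (2 * k) + 1) o x * (G2 x.1).coeff x.2 =
        if (o.1 : ℕ) = 2 * k ∧ (o.2 : ℕ) = 2 * k + 1 then 1 else 0) ∧
      (G1 (2 * k)).coeff (2 * k + 1) * (1 - 2 * (G2 (2 * k)).coeff (2 * k)) +
        2 * ((G2 (2 * k)).coeff (2 * k + 1) * (G1 (2 * k)).coeff (2 * k)) =
      (1 - cb k ^ 2) * ((2 * k + 1) * cb k ^ 2) / 4 := by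
  obtain ⟨G1, G2, s1, s2, v1, v2, b, hb, v3, v4⟩ := odd_cols (h := 2 * k) (ε := 1) (κ := κe k)
    (by omega) le_rfl (by omega) (κe_S k)
  refine ⟨G1, G2, s1, s2, ?_⟩
  obtain ⟨j, rfl⟩ : ∃ j, k = j + 1 := ⟨k - 1, by omega⟩
  set k := j + 1 with hkj
  have q1 : (((1 : ℚ[X]) - X ^ 2) ^ (2 * k)).coeff (2 * k) = (-1) ^ k * (Nat.centralBinom k : ℚ) := by
    rw [coeff_sq_even, Nat.centralBinom_eq_two_mul_choose]
  have q2 : (X * ((1 : ℚ[X]) - X ^ 2) ^ (2 * k)).coeff (2 * k) = 0 := by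
    have : 2 * k = 2 * j + 1 + 1 := by omega
    conv_lhs => rw [this, coeff_X_mul]
    exact coeff_sq_odd _ _
  have q3 : (((1 : ℚ[X]) - X ^ 2) ^ (2 * k)).coeff (2 * k + 1) = 0 := coeff_sq_odd _ _
  have u1 : (U (2 * k) 1 (κe k)).coeff (2 * k + 1) = - ((2 * k + 1) * cb k ^ 2 / 2) := by
    rw [U_coeff_par (by omega), ← κe_cb]
    unfold term
    rw [Nat.centralBinom_eq_two_mul_choose]
    push_cast
    have : (2 * (k : ℚ) + 1 - 2 * k) = 1 := by ring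
    rw [this]; ring
  have u2 : (U (2 * k) 1 (κe k)).coeff (2 * (2 * k) + 1) = - κe k / (2 * k + 1) := by
    rw [U_coeff_par (by omega)]
    unfold term
    rw [neg_pow_two, Nat.choose_self]
    push_cast
    have : (2 * (2 * (k : ℚ)) + 1 - 2 * k) = 2 * k + 1 := by ring
    rw [this]; ring
  rw [u2, pow_succ, neg_pow_two] at hb
  have hb' : b = κe k / (2 * k + 1) := by linarith [neg_div (2 * (k : ℚ) + 1) (κe k)]
  have hbc : b * ((-1) ^ k * (Nat.centralBinom k : ℚ)) = cb k ^ 2 / 2 := by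
    rw [hb', div_mul_eq_mul_div, κe_cb]
    have h4 : (2 * (k : ℚ) + 1) ≠ 0 := by positivity
    field_simp
  rw [q1, q2] at v3
  rw [q1, q3] at v4
  rw [Lam_even] at v1 v2 v3 v4
  rw [u1] at v2
  have v3' : (G2 (2 * k)).coeff (2 * k) = 1 / 4 + cb k ^ 2 / 4 := by rw [v3, sub_zero, hbc]; ring
  have v4' : (G2 (2 * k)).coeff (2 * k + 1) = 1 / 4 - cb k ^ 2 / 4 := by
    rw [v4, zero_sub, mul_neg, hbc]; ring
  rw [v1, v2, v3', v4']
  ring

/-- order `4k+3` -/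
theorem case3 (k : ℕ) : ∃ G1 G2 : ℕ → ℚ[X],
      (∀ o : O (2 * (2 * k + 1) + 1), ∑ x : E (2 * (2 * k + 1) + 1),
        K0 (2 * (2 * k + 1) + 1) o x * (G1 x.1).coeff x.2 =
        if (o.1 : ℕ) = 2 * k + 1 ∧ (o.2 : ℕ) = 2 * k + 1 then 1 else 0) ∧
      (∀ o : O (2 * (2 * k + 1) + 1), ∑ x : E (2 * (2 * k + 1) + 1),
        K0 (2 * (2 * k + 1) + 1) o x * (G2 x.1).coeff x.2 =
        if (o.1 : ℕ) = 2 * k + 1 ∧ (o.2 : ℕ) = 2 * k + 1 + 1 then 1 else 0) ∧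
      (G1 (2 * k + 1)).coeff (2 * k + 1 + 1) * (1 - 2 * (G2 (2 * k + 1)).coeff (2 * k + 1)) +
        2 * ((G2 (2 * k + 1)).coeff (2 * k + 1 + 1) * (G1 (2 * k + 1)).coeff (2 * k + 1)) =
      (k + 1) * cb (k + 1) ^ 2 / 2 := by
  obtain ⟨G1, G2, s1, s2, v1, v2, b, hb, v3, v4⟩ := odd_cols (h := 2 * k + 1) (ε := 0) (κ := κo k)
    (by omega) (by omega) (by omega) (κo_S k)
  refine ⟨G1, G2, s1, s2, ?_⟩
  have u1 : (U (2 * k + 1) 0 (κo k)).coeff (2 * k + 1 + 1) = - ((k + 1) * cb (k + 1) ^ 2) := by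
    have h0 := U_coeff_par (h := 2 * k + 1) (ε := 0) (κ := κo k) (by omega) (k + 1)
    rw [add_zero, show 2 * (k + 1) = 2 * k + 1 + 1 from by ring] at h0
    rw [h0, ← κo_ch]
    unfold term
    rw [show (2 * k + 1).choose (k + 1) = (2 * k + 1).choose k from by
      rw [show k + 1 = 2 * k + 1 - k from by omega, Nat.choose_symm (by omega)]]
    push_cast
    have : (2 * ((k : ℚ) + 1) + 0 - (2 * k + 1)) = 1 := by ring
    rw [this, pow_succ]; ring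
  have u2 : (U (2 * k + 1) 0 (κo k)).coeff (2 * (2 * k + 1) + 1) = 0 :=
    U_coeff_other (by omega) _ (by omega) (by omega)
  rw [u2] at hb
  have hb0 : b = 0 := by
    rcases mul_eq_zero.mp hb with h | h
    · exact absurd h (pow_ne_zero _ (by norm_num))
    · exact h
  rw [hb0, zero_mul, add_zero] at v3 v4
  rw [Lam_odd] at v1 v2 v3 v4
  rw [u1] at v2
  rw [v1, v2, v3, v4]
  ring

/-- order `4k`, `k ≥ 1` -/
theorem case0 (k : ℕ) (hk : 1 ≤ k) : ∃ G1 G2 : ℕ → ℚ[X],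
      (∀ o : O (2 * (2 * k)), ∑ x : E (2 * (2 * k)), K0 (2 * (2 * k)) o x * (G1 x.1).coeff x.2 =
        if (o.1 : ℕ) + 1 = 2 * k ∧ (o.2 : ℕ) = 2 * k then 1 else 0) ∧
      (∀ o : O (2 * (2 * k)), ∑ x : E (2 * (2 * k)), K0 (2 * (2 * k)) o x * (G2 x.1).coeff x.2 =
        if (o.1 : ℕ) + 1 = 2 * k ∧ (o.2 : ℕ) = 2 * k + 1 then 1 else 0) ∧
      (G2 (2 * k)).coeff (2 * k - 1) * (1 - 2 * (G1 (2 * k)).coeff (2 * k)) +
        2 * ((G1 (2 * k)).coeff (2 * k - 1) * (G2 (2 * k)).coeff (2 * k)) =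
      (1 + cb k ^ 2) * (k * cb k ^ 2) / 2 := by
  obtain ⟨G1, G2, s1, s2, b, b1, hb, hb1, v1, v2, v3, v4⟩ := even_cols (h := 2 * k) (ε := 1) (κ := κe k)
    (by omega) le_rfl (by omega) (κe_S k)
  refine ⟨G1, G2, s1, s2, ?_⟩
  obtain ⟨j, rfl⟩ : ∃ j, k = j + 1 := ⟨k - 1, by omega⟩
  set k := j + 1 with hkj
  have q1 : (((1 : ℚ[X]) - X ^ 2) ^ (2 * k)).coeff (2 * k) = (-1) ^ k * (Nat.centralBinom k : ℚ) := by
    rw [coeff_sq_even, Nat.centralBinom_eq_two_mul_choose]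
  have q2 : (X * ((1 : ℚ[X]) - X ^ 2) ^ (2 * k)).coeff (2 * k) = 0 := by
    have : 2 * k = 2 * j + 1 + 1 := by omega
    conv_lhs => rw [this, coeff_X_mul]
    exact coeff_sq_odd _ _
  have q3 : (((1 : ℚ[X]) - X ^ 2) ^ (2 * k)).coeff (2 * k - 1) = 0 := by
    rw [show 2 * k - 1 = 2 * j + 1 from by omega]; exact coeff_sq_odd _ _
  have q4 : (X * ((1 : ℚ[X]) - X ^ 2) ^ (2 * k)).coeff (2 * k - 1) =
      (-1) ^ j * (((2 * k).choose j : ℕ) : ℚ) := by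
    rw [show 2 * k - 1 = 2 * j + 1 from by omega, coeff_X_mul, coeff_sq_even]
  have hch : (((2 * k).choose j : ℕ) : ℚ) = (Nat.centralBinom k : ℚ) * k / (k + 1) := by
    have h := Nat.choose_succ_right_eq (2 * k) j
    rw [← hkj, show 2 * k - j = k + 1 from by omega, ← Nat.centralBinom_eq_two_mul_choose] at h
    have h' : (Nat.centralBinom k : ℚ) * (k : ℚ) = ((2 * k).choose j : ℕ) * ((k : ℚ) + 1) := by
      exact_mod_cast h
    rw [h']; field_simp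
  have hs : (-1 : ℚ) ^ j = - (-1) ^ k := by rw [hkj, pow_succ]; ring
  have u2 : (U (2 * k) 1 (κe k)).coeff (2 * (2 * k) + 1) = - κe k / (2 * k + 1) := by
    rw [U_coeff_par (by omega)]
    unfold term
    rw [neg_pow_two, Nat.choose_self]
    push_cast
    have : (2 * (2 * (k : ℚ)) + 1 - 2 * k) = 2 * k + 1 := by ring
    rw [this]; ring
  have u3 : (U (2 * k) 1 (κe k)).coeff (2 * (2 * k)) = 0 :=
    U_coeff_other (by omega) _ (by omega) (by omega)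
  have u4 : (U (2 * k) 1 (κe k)).coeff (2 * k - 1) = - ((2 * k + 1) * cb k ^ 2 / 2 * (k / (k + 1))) := by
    rw [show 2 * k - 1 = 2 * j + 1 from by omega, U_coeff_par (by omega), ← κe_cb]
    unfold term
    rw [hch, hs]
    have : (2 * (j : ℚ) + ((1 : ℕ) : ℚ) - ((2 * k : ℕ) : ℚ)) = -1 := by rw [hkj]; push_cast; ring
    rw [this]
    ring
  rw [u2, pow_succ, neg_pow_two] at hb
  have hb' : b = κe k / (2 * k + 1) := by linarith [neg_div (2 * (k : ℚ) + 1) (κe k)]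
  rw [u3, pow_succ, neg_pow_two] at hb1
  have hb1' : b1 = b := by linarith
  have hbc : b * ((-1) ^ k * (Nat.centralBinom k : ℚ)) = cb k ^ 2 / 2 := by
    rw [hb', div_mul_eq_mul_div, κe_cb]
    have h4 : (2 * (k : ℚ) + 1) ≠ 0 := by positivity
    field_simp
  rw [q1] at v1
  rw [q3] at v2
  rw [q1, q2, hb1'] at v3
  rw [q3, q4, u4] at v4
  rw [Lam_even] at v1 v2 v3 v4
  have v1' : (G1 (2 * k)).coeff (2 * k) = 1 / 4 - cb k ^ 2 / 4 := by rw [v1, hbc]; ring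
  have v3' : (G2 (2 * k)).coeff (2 * k) = - (1 / 4) - cb k ^ 2 / 4 := by rw [v3, hbc]; ring
  have v4' : (G2 (2 * k)).coeff (2 * k - 1) = - (1 / 4) + cb k ^ 2 / 4 + k * cb k ^ 2 := by
    rw [v4, hch, hs]
    have h7 : b * (- (-1) ^ k * ((Nat.centralBinom k : ℚ) * k / (k + 1))) =
        - (cb k ^ 2 / 2 * (k / (k + 1))) := by rw [← hbc]; ring
    rw [h7]
    field_simp
    ring
  rw [v1', v2, v3', v4']
  ring

/-- order `4k+2` -/
theorem case2 (k : ℕ) : ∃ G1 G2 : ℕ → ℚ[X],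
      (∀ o : O (2 * (2 * k + 1)), ∑ x : E (2 * (2 * k + 1)), K0 (2 * (2 * k + 1)) o x * (G1 x.1).coeff x.2 =
        if (o.1 : ℕ) + 1 = 2 * k + 1 ∧ (o.2 : ℕ) = 2 * k + 1 then 1 else 0) ∧
      (∀ o : O (2 * (2 * k + 1)), ∑ x : E (2 * (2 * k + 1)), K0 (2 * (2 * k + 1)) o x * (G2 x.1).coeff x.2 =
        if (o.1 : ℕ) + 1 = 2 * k + 1 ∧ (o.2 : ℕ) = 2 * k + 1 + 1 then 1 else 0) ∧
      (G2 (2 * k + 1)).coeff (2 * k + 1 - 1) * (1 - 2 * (G1 (2 * k + 1)).coeff (2 * k + 1)) +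
        2 * ((G1 (2 * k + 1)).coeff (2 * k + 1 - 1) * (G2 (2 * k + 1)).coeff (2 * k + 1)) =
      (2 * k + 1) * cb k ^ 2 / 4 := by
  obtain ⟨G1, G2, s1, s2, b, b1, hb, hb1, v1, v2, v3, v4⟩ := even_cols (h := 2 * k + 1) (ε := 0)
    (κ := κo k) (by omega) (by omega) (by omega) (κo_S k)
  refine ⟨G1, G2, s1, s2, ?_⟩
  have u2 : (U (2 * k + 1) 0 (κo k)).coeff (2 * (2 * k + 1) + 1) = 0 :=
    U_coeff_other (by omega) _ (by omega) (by omega)
  rw [u2] at hb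
  have hb0 : b = 0 := by
    rcases mul_eq_zero.mp hb with h | h
    · exact absurd h (pow_ne_zero _ (by norm_num))
    · exact h
  have u3 : (U (2 * k + 1) 0 (κo k)).coeff (2 * (2 * k + 1)) = κo k / (2 * k + 1) := by
    have h0 := U_coeff_par (h := 2 * k + 1) (ε := 0) (κ := κo k) (by omega) (2 * k + 1)
    rw [add_zero] at h0
    rw [h0]
    unfold term
    rw [Nat.choose_self, pow_succ, neg_pow_two]
    push_cast
    have : (2 * (2 * (k : ℚ) + 1) + 0 - (2 * k + 1)) = 2 * k + 1 := by ring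
    rw [this]; ring
  have u4 : (U (2 * k + 1) 0 (κo k)).coeff (2 * k + 1 - 1) = - ((k + 1) * cb (k + 1) ^ 2) := by
    have h0 := U_coeff_par (h := 2 * k + 1) (ε := 0) (κ := κo k) (by omega) k
    rw [add_zero] at h0
    rw [Nat.add_sub_cancel, h0, ← κo_ch]
    unfold term
    push_cast
    have : (2 * (k : ℚ) + 0 - (2 * k + 1)) = -1 := by ring
    rw [this]; ring
  have hb1' : b1 = κo k / (2 * k + 1) := by
    rw [u3, hb0, zero_mul, sub_zero, show 2 * k + 1 + 1 = 2 * (k + 1) from by ring, neg_pow_two,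
      one_mul] at hb1
    exact hb1
  have q1 : (((1 : ℚ[X]) - X ^ 2) ^ (2 * k + 1)).coeff (2 * k + 1) = 0 := coeff_sq_odd _ _
  have q2 : (((1 : ℚ[X]) - X ^ 2) ^ (2 * k + 1)).coeff (2 * k + 1 - 1) =
      (-1) ^ k * (((2 * k + 1).choose k : ℕ) : ℚ) := by
    rw [Nat.add_sub_cancel, coeff_sq_even]
  have h4 : (2 * (k : ℚ) + 1) ≠ 0 := by positivity
  have hbc : b1 * ((-1) ^ k * (((2 * k + 1).choose k : ℕ) : ℚ)) = - ((k + 1) * cb (k + 1) ^ 2) / (2 * k + 1) := by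
    rw [hb1', div_mul_eq_mul_div, κo_ch]
  rw [hb0, zero_mul, sub_zero] at v1 v2 v3 v4
  rw [q1, mul_zero, sub_zero] at v3
  rw [q2, u4, hbc] at v4
  rw [Lam_odd] at v1 v2 v3 v4
  have hc : cb (k + 1) = (2 * k + 1) * cb k / (2 * (k : ℚ) + 2) := by
    rw [← cb_succ k]; field_simp
  rw [v1, v2, v3, v4, hc]
  field_simp
  ring

end Pool.Agent.Q321.KM
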