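import Mathlib
import Pool.Agent.Q321.KM.Signs
import Pool.Agent.Q321.KM.Spec

/-!
# The number of tilings from two columns of the inverse matrix
-/

set_option autoImplicit false

namespace Pool.Agent.Q321.KM

open Finset Pool.Agent.Helper848 Pool.Agent.Helper848.AztecDet

theorem fc_inj (n : ℕ) : Function.Injective (fc n) := by
  rintro ⟨⟨m, hm⟩, ⟨k, hk⟩⟩ ⟨⟨m', hm'⟩, ⟨k', hk'⟩⟩ h
  unfold fc at h
  rw [Prod.mk.injEq] at h
  simp only at h
  ext <;> simp only <;> omega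

theorem gc_inj (n : ℕ) : Function.Injective (gc n) := by
  rintro ⟨⟨m, hm⟩, ⟨k, hk⟩⟩ ⟨⟨m', hm'⟩, ⟨k', hk'⟩⟩ h
  unfold gc at h
  rw [Prod.mk.injEq] at h
  simp only at h
  ext <;> simp only <;> omega

theorem fc_mem (n : ℕ) (x : E n) : fc n x ∈ aztec n ∧ Even ((fc n x).1 + (fc n x).2 + n) := by
  have h1 := x.1.2
  have h2 := x.2.2
  rw [mem_aztec, Int.even_iff]
  unfold fc
  simp only
  omega

theorem gc_mem (n : ℕ) (o : O n) : gc n o ∈ aztec n ∧ ¬ Even ((gc n o).1 + (gc n o).2 + n) := by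
  have h1 := o.1.2
  have h2 := o.2.2
  rw [mem_aztec, Int.even_iff]
  unfold gc
  simp only
  omega

theorem fc_surj (n : ℕ) (p : ℤ × ℤ) (h1 : p ∈ aztec n) (h2 : Even (p.1 + p.2 + n)) :
    ∃ x, fc n x = p := by
  rw [mem_aztec] at h1
  rw [Int.even_iff] at h2
  refine ⟨(⟨((p.1 - p.2 + n) / 2).toNat, by omega⟩, ⟨((p.1 + p.2 + n) / 2).toNat, by omega⟩), ?_⟩
  unfold fc
  ext <;> simp only <;> omega

theorem gc_surj (n : ℕ) (p : ℤ × ℤ) (h1 : p ∈ aztec n) (h2 : ¬ Even (p.1 + p.2 + n)) :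
    ∃ o, gc n o = p := by
  rw [mem_aztec] at h1
  rw [Int.even_iff] at h2
  refine ⟨(⟨((p.1 - p.2 + n - 1) / 2).toNat, by omega⟩, ⟨((p.1 + p.2 + n + 1) / 2).toNat, by omega⟩), ?_⟩
  unfold gc
  ext <;> simp only <;> omega

theorem count_general (N : ℕ) (o1 oe : O (N + 1)) (e2 ee : E (N + 1)) (hne : ee ≠ e2)
    (a : O (N + 1) → ℕ) (b : E (N + 1) → ℕ)
    (hsign : ∀ o x, o ≠ o1 → x ≠ e2 → (if o = oe ∧ x = ee then (-1 : ℤ) else Kz (N + 1) o x) =
      (-1) ^ a o * (-1) ^ b x * kast (knightRegion (N + 1)) (gc (N + 1) o) (fc (N + 1) x))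
    (hκ : K0 (N + 1) oe ee = 1)
    (hcell : (gc (N + 1) o1 = (0, 1) ∧ fc (N + 1) e2 = (-1, -1)) ∨
      (gc (N + 1) o1 = (-1, -1) ∧ fc (N + 1) e2 = (0, 1)))
    (H1 H2 : E (N + 1) → ℚ)
    (h1 : ∀ o, ∑ x, K0 (N + 1) o x * H1 x = if o = o1 then 1 else 0)
    (h2 : ∀ o, ∑ x, K0 (N + 1) o x * H2 x = if o = oe then 1 else 0) :
    (numTilings (knightRegion (N + 1)) : ℚ) =
      2 ^ ((N + 1) * (N + 2) / 2) * |H1 e2 * (1 - 2 * H2 ee) + 2 * (H2 e2 * H1 ee)| := by
  classical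
  -- the bijection of rows and columns
  have hcard : Fintype.card (E (N + 1)) = Fintype.card (O (N + 1)) := by
    simp only [Fintype.card_prod, Fintype.card_fin]; ring
  let e0 : E (N + 1) ≃ O (N + 1) := Fintype.equivOfCardEq hcard
  let e' : E (N + 1) ≃ O (N + 1) := e0.trans (Equiv.swap (e0 e2) o1)
  have he' : e' e2 = o1 := by simp [e']
  let φ : {x : E (N + 1) // x ≠ e2} ≃ {o : O (N + 1) // o ≠ o1} := e'.subtypeEquiv (fun x => by
    rw [← he']; exact not_congr (e'.injective.eq_iff).symm)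
  obtain ⟨e, he⟩ := abs_det_minor (K0 (N + 1)) H1 H2 o1 oe e2 ee hne h1 h2 hκ φ
  rw [abs_det_K0] at he
  let M : Matrix {x : E (N + 1) // x ≠ e2} {x : E (N + 1) // x ≠ e2} ℤ :=
    Matrix.of fun i j => if (φ i : O (N + 1)) = oe ∧ (j : E (N + 1)) = ee then -1
      else Kz (N + 1) (φ i) j
  have hnum : numTilings (knightRegion (N + 1)) = M.det.natAbs := by
    refine numTilings_eq ((N + 1 : ℕ) : ℤ) (knightRegion (N + 1))
      (fun x : {x : E (N + 1) // x ≠ e2} => fc (N + 1) x.1)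
      (fun x : {x : E (N + 1) // x ≠ e2} => gc (N + 1) (φ x).1)
      (fun x y h => Subtype.ext (fc_inj _ h))
      (fun x y h => φ.injective (Subtype.ext (gc_inj _ h))) ?_ ?_
      (fun i => (-1) ^ a (φ i).1) (fun j => (-1) ^ b j.1) M ?_
    · intro p
      rw [mem_knight]
      constructor
      · rintro ⟨⟨x, hx⟩, rfl⟩
        simp only
        have hm := fc_mem (N + 1) x
        have hg := gc_mem (N + 1) o1
        refine ⟨⟨?_, ?_, hm.1⟩, hm.2⟩
        · intro hc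
          rcases hcell with h | h
          · rw [h.1, ← hc] at hg; exact hg.2 hm.2
          · exact hx (fc_inj _ (hc.trans h.2.symm))
        · intro hc
          rcases hcell with h | h
          · exact hx (fc_inj _ (hc.trans h.2.symm))
          · rw [h.1, ← hc] at hg; exact hg.2 hm.2
      · rintro ⟨⟨hp1, hp2, hp3⟩, hp4⟩
        obtain ⟨x, hx⟩ := fc_surj (N + 1) p hp3 hp4
        refine ⟨⟨x, ?_⟩, hx⟩
        rintro rfl
        rcases hcell with h | h
        · exact hp2 (hx.symm.trans h.2)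
        · exact hp1 (hx.symm.trans h.2)
    · intro p
      rw [mem_knight]
      constructor
      · rintro ⟨x, rfl⟩
        have hm := gc_mem (N + 1) (φ x).1
        have hg := fc_mem (N + 1) e2
        refine ⟨⟨?_, ?_, hm.1⟩, hm.2⟩
        · intro hc
          rcases hcell with h | h
          · exact (φ x).2 (gc_inj _ (hc.trans h.1.symm))
          · rw [h.2, ← hc] at hg; exact hm.2 hg.2
        · intro hc
          rcases hcell with h | h
          · rw [h.2, ← hc] at hg; exact hm.2 hg.2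
          · exact (φ x).2 (gc_inj _ (hc.trans h.1.symm))
      · rintro ⟨⟨hp1, hp2, hp3⟩, hp4⟩
        obtain ⟨o, ho⟩ := gc_surj (N + 1) p hp3 hp4
        have hne : o ≠ o1 := by
          rintro rfl
          rcases hcell with h | h
          · exact hp1 (ho.symm.trans h.1)
          · exact hp2 (ho.symm.trans h.1)
        refine ⟨φ.symm ⟨o, hne⟩, ?_⟩
        simp only [Equiv.apply_symm_apply]
        exact ho
    · intro i j
      simp only [M, Matrix.of_apply]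
      rw [hsign (φ i).1 j.1 (φ i).2 j.2]
      simp only [Units.val_pow_eq_pow_val, Units.val_neg, Units.val_one]
  have hcast : ((M.det : ℤ) : ℚ) = (Matrix.of fun i j : {x : E (N + 1) // x ≠ e2} =>
      if (φ i : O (N + 1)) = oe ∧ (j : E (N + 1)) = ee then (-1 : ℚ) else K0 (N + 1) (φ i) j).det := by
    have := (Int.castRingHom ℚ).map_det M
    rw [eq_intCast] at this
    rw [this]
    congr 1
    ext i j
    simp only [RingHom.mapMatrix_apply, Matrix.map_apply, M, Matrix.of_apply, eq_intCast]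
    split_ifs
    · push_cast; rfl
    · exact Kz_cast _ _ _
  rw [hnum, Nat.cast_natAbs, Int.cast_abs, hcast, he]

/-- the same with the order as a variable -/
theorem count_general' (n : ℕ) (hn : 1 ≤ n) (o1 oe : O n) (e2 ee : E n) (hne : ee ≠ e2)
    (a : O n → ℕ) (b : E n → ℕ)
    (hsign : ∀ o x, o ≠ o1 → x ≠ e2 → (if o = oe ∧ x = ee then (-1 : ℤ) else Kz n o x) =
      (-1) ^ a o * (-1) ^ b x * kast (knightRegion n) (gc n o) (fc n x))
    (hκ : K0 n oe ee = 1)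
    (hcell : (gc n o1 = (0, 1) ∧ fc n e2 = (-1, -1)) ∨ (gc n o1 = (-1, -1) ∧ fc n e2 = (0, 1)))
    (H1 H2 : E n → ℚ)
    (h1 : ∀ o, ∑ x, K0 n o x * H1 x = if o = o1 then 1 else 0)
    (h2 : ∀ o, ∑ x, K0 n o x * H2 x = if o = oe then 1 else 0) :
    (numTilings (knightRegion n) : ℚ) =
      2 ^ (n * (n + 1) / 2) * |H1 e2 * (1 - 2 * H2 ee) + 2 * (H2 e2 * H1 ee)| := by
  obtain ⟨N, rfl⟩ : ∃ N, n = N + 1 := ⟨n - 1, by omega⟩
  exact count_general N o1 oe e2 ee hne a b hsign hκ hcell H1 H2 h1 h2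

/-- odd order -/
theorem count_odd (h : ℕ) (h0 : 1 ≤ h) (G1 G2 : ℕ → Polynomial ℚ)
    (s1 : ∀ o : O (2 * h + 1), ∑ x : E (2 * h + 1), K0 (2 * h + 1) o x * (G1 x.1).coeff x.2 =
        if (o.1 : ℕ) = h ∧ (o.2 : ℕ) = h then 1 else 0)
    (s2 : ∀ o : O (2 * h + 1), ∑ x : E (2 * h + 1), K0 (2 * h + 1) o x * (G2 x.1).coeff x.2 =
        if (o.1 : ℕ) = h ∧ (o.2 : ℕ) = h + 1 then 1 else 0) :
    (numTilings (knightRegion (2 * h + 1)) : ℚ) = 2 ^ ((2 * h + 1) * (2 * h + 1 + 1) / 2) *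
      |(G1 h).coeff (h + 1) * (1 - 2 * (G2 h).coeff h) +
        2 * ((G2 h).coeff (h + 1) * (G1 h).coeff h)| := by
  have key := count_general' (2 * h + 1) (by omega) (⟨h, by omega⟩, ⟨h, by omega⟩)
    (⟨h, by omega⟩, ⟨h + 1, by omega⟩)
    (⟨h, by omega⟩, ⟨h + 1, by omega⟩) (⟨h, by omega⟩, ⟨h, by omega⟩)
    (by rw [Ne, Prod.ext_iff, Fin.ext_iff, Fin.ext_iff]; simp only; omega)
    (aoo h) (bxo h) ?_ ?_ ?_ (fun x => (G1 x.1).coeff x.2) (fun x => (G2 x.1).coeff x.2) ?_ ?_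
  · exact key
  · rintro o x ho hx
    rw [← sign_odd h h0 o x ?_ ?_]
    · apply if_congr _ rfl rfl
      rw [Prod.ext_iff, Prod.ext_iff, Fin.ext_iff, Fin.ext_iff, Fin.ext_iff, Fin.ext_iff]
    · intro hc; apply ho; rw [Prod.ext_iff, Fin.ext_iff, Fin.ext_iff]; exact hc
    · intro hc; apply hx; rw [Prod.ext_iff, Fin.ext_iff, Fin.ext_iff]; exact hc
  · rw [← Kz_cast]; simp [Kz]
  · right
    unfold gc fc
    simp only
    constructor <;> ext <;> simp only <;> push_cast <;> ring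
  · intro o
    rw [s1 o]
    apply if_congr _ rfl rfl
    rw [Prod.ext_iff, Fin.ext_iff, Fin.ext_iff]
  · intro o
    rw [s2 o]
    apply if_congr _ rfl rfl
    rw [Prod.ext_iff, Fin.ext_iff, Fin.ext_iff]

/-- even order -/
theorem count_even (h : ℕ) (h0 : 1 ≤ h) (G1 G2 : ℕ → Polynomial ℚ)
    (s1 : ∀ o : O (2 * h), ∑ x : E (2 * h), K0 (2 * h) o x * (G1 x.1).coeff x.2 =
        if (o.1 : ℕ) + 1 = h ∧ (o.2 : ℕ) = h then 1 else 0)
    (s2 : ∀ o : O (2 * h), ∑ x : E (2 * h), K0 (2 * h) o x * (G2 x.1).coeff x.2 =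
        if (o.1 : ℕ) + 1 = h ∧ (o.2 : ℕ) = h + 1 then 1 else 0) :
    (numTilings (knightRegion (2 * h)) : ℚ) = 2 ^ (2 * h * (2 * h + 1) / 2) *
      |(G2 h).coeff (h - 1) * (1 - 2 * (G1 h).coeff h) +
        2 * ((G1 h).coeff (h - 1) * (G2 h).coeff h)| := by
  have key := count_general' (2 * h) (by omega) (⟨h - 1, by omega⟩, ⟨h + 1, by omega⟩)
    (⟨h - 1, by omega⟩, ⟨h, by omega⟩)
    (⟨h, by omega⟩, ⟨h - 1, by omega⟩) (⟨h, by omega⟩, ⟨h, by omega⟩)
    (by rw [Ne, Prod.ext_iff, Fin.ext_iff, Fin.ext_iff]; simp only; omega)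
    (aoe h) (bxe h) ?_ ?_ ?_ (fun x => (G2 x.1).coeff x.2) (fun x => (G1 x.1).coeff x.2) ?_ ?_
  · exact key
  · rintro o x ho hx
    have := sign_even h h0 o x ?_ ?_
    · rw [← this]
      apply if_congr _ rfl rfl
      rw [Prod.ext_iff, Prod.ext_iff, Fin.ext_iff, Fin.ext_iff, Fin.ext_iff, Fin.ext_iff]
      simp only
      omega
    · intro hc; apply ho; rw [Prod.ext_iff, Fin.ext_iff, Fin.ext_iff]; simp only; omega
    · intro hc; apply hx; rw [Prod.ext_iff, Fin.ext_iff, Fin.ext_iff]; simp only; omega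
  · rw [← Kz_cast]
    have : Kz (2 * h) (⟨h - 1, by omega⟩, ⟨h, by omega⟩) (⟨h, by omega⟩, ⟨h, by omega⟩) = 1 := by
      unfold Kz
      simp only
      split_ifs <;> omega
    rw [this]
    norm_num
  · left
    unfold gc fc
    simp only
    constructor <;> ext <;> simp only <;> omega
  · intro o
    rw [s2 o]
    apply if_congr _ rfl rfl
    rw [Prod.ext_iff, Fin.ext_iff, Fin.ext_iff]
    simp only
    omega
  · intro o
    rw [s1 o]
    apply if_congr _ rfl rfl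
    rw [Prod.ext_iff, Fin.ext_iff, Fin.ext_iff]
    simp only
    omega

end Pool.Agent.Q321.KM
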